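import Pool.Agent.D0H4.Rk.Ultra
import Pool.Agent.R350.HH

/-!
# Uniform bounds
-/

set_option autoImplicit false

namespace Pool.Agent.D0H4.Rk

open Module Filter
open Pool.Agent.R350 (UP gr gr_eq gr_eq_zero gr_surj cst cst_apply algebraMap_gr gr_smul li_ev charZero_UP
  exists_ultra_gen exists_der_U box mem_box support_box coeff_sum_mon support_sum_mon eq_sum_mon eval_U count_mat)

/-- **Uniform bound for the degree.** -/
theorem dim_unif (κ C : Type) [Field κ] [CharZero κ] [Field C] [CharZero C] [Algebra κ C] (s n c r d e S : ℕ)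
    (hS : s * e + cs (n ^ 2 + c * n) n < S) :
    ∃ E : ℕ, ∀ l : Fin s → C, Col κ C s n c l → ∀ (β : Fin n → C) (P : Fin r → MvPolynomial (Fin n) C),
      (∀ j, (P j).totalDegree ≤ d) → ∀ 𝔅 : Set (Fin s × Fin n → κ), Fl 𝔅 l β P e →
      ∀ φ : Fin S → Fin s × Fin n → κ,
      ∃ Δ : MvPolynomial (Fin S) κ, Δ ≠ 0 ∧ Δ.totalDegree ≤ E ∧ ∀ b ∈ 𝔅,
        MvPolynomial.eval (fun q => ∑ x, φ q x * b x) Δ ≠ 0 → ∃ j, MvPolynomial.eval (pb l β b) (P j) ≠ 0 := by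
  classical
  by_contra hcon
  push Not at hcon
  choose l hl β P hP 𝔅 hF φ hb using hcon
  let 𝒰 : Ultrafilter ℕ := Filter.hyperfilter ℕ
  have hch1 : CharZero (UP 𝒰 κ) := charZero_UP 𝒰
  have hch2 : CharZero (UP 𝒰 C) := charZero_UP 𝒰
  -- the internal polynomials
  set PU : Fin r → MvPolynomial (Fin n) (UP 𝒰 C) := fun j =>
    ∑ γ ∈ box n d, MvPolynomial.monomial γ (gr 𝒰 C (fun t => (P t j).coeff γ)) with hPU
  have hev : ∀ j (v : Fin n → ℕ → C), MvPolynomial.eval (fun i => gr 𝒰 C (v i)) (PU j) =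
      gr 𝒰 C (fun t => MvPolynomial.eval (fun i => v i t) (P t j)) := by
    intro j v
    rw [hPU]
    simp only []
    rw [eval_U]
    congr 1
    funext t
    rw [← eq_sum_mon (support_box (fun i => (MvPolynomial.degreeOf_le_totalDegree _ i).trans (hP t j)))]
  -- the points
  have hpt : ∀ (b : Fin s × Fin n → ℕ → κ), pb (fun k => gr 𝒰 C (fun t => l t k)) (fun i => gr 𝒰 C (fun t => β t i))
      (fun x => gr 𝒰 κ (b x)) = fun i => gr 𝒰 C (fun t => pb (l t) (β t) (fun x => b x t) i) := by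
    intro b
    funext i
    have h1 : ∑ k, gr 𝒰 C (fun t => l t k) * algebraMap (UP 𝒰 κ) (UP 𝒰 C) (gr 𝒰 κ (b (k, i))) =
        gr 𝒰 C (fun t => ∑ k, l t k * algebraMap κ C (b (k, i) t)) := by
      rw [← gr_sum]
      refine Finset.sum_congr rfl (fun k _ => ?_)
      rw [algebraMap_gr, ← map_mul]
      rfl
    rw [pb, h1, ← map_add]
    rfl
  set 𝔅U : Set (Fin s × Fin n → UP 𝒰 κ) := {b | ∃ b' : Fin s × Fin n → ℕ → κ, (∀ t, (fun x => b' x t) ∈ 𝔅 t) ∧
    b = fun x => gr 𝒰 κ (b' x)} with h𝔅U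
  have hFU : Fl 𝔅U (fun k => gr 𝒰 C (fun t => l t k)) (fun i => gr 𝒰 C (fun t => β t i)) PU e := by
    rintro w hw _ ⟨b', hb', rfl⟩
    choose w' hw' using fun a i => gr_surj 𝒰 (w a i)
    set y' : Fin n → ℕ → C := fun i t => pb (l t) (β t) (fun x => b' x t) i with hy'
    have hwe : (fun a => fun i => gr 𝒰 κ (w' a i)) = w := by
      funext a i
      exact hw' a i
    rw [← hwe] at hw
    have hli := li_evK (C := C) 𝒰 w' hw
    have h1 : ∀ t : ℕ, ∃ (z : Fin (e + 1) → C), LinearIndependent κ (fun a => fun i => w' a i t) →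
        ∃ j, MvPolynomial.eval (fun i => y' i t + ∑ a, z a * algebraMap κ C (w' a i t)) (P t j) ≠ 0 := by
      intro t
      by_cases h : LinearIndependent κ (fun a => fun i => w' a i t)
      · obtain ⟨j, z, hz⟩ := hF t _ h (fun x => b' x t) (hb' t)
        exact ⟨z, fun _ => ⟨j, hz⟩⟩
      · exact ⟨0, fun h' => absurd h' h⟩
    choose z hz using h1
    obtain ⟨j, hj⟩ := ev_exists 𝒰 (hli.mono fun b hb => hz b hb)
    refine ⟨j, fun a => gr 𝒰 C (fun t => z t a), ?_⟩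
    rw [hpt b']
    have h3 : (fun i => gr 𝒰 C (y' i) + ∑ a, gr 𝒰 C (fun b => z b a) * algebraMap (UP 𝒰 κ) (UP 𝒰 C) (w a i)) =
        fun i => gr 𝒰 C (fun t => y' i t + ∑ a, z t a * algebraMap κ C (w' a i t)) := by
      funext i
      have h5 : ∑ a, gr 𝒰 C (fun b => z b a) * algebraMap (UP 𝒰 κ) (UP 𝒰 C) (w a i) =
          gr 𝒰 C (fun t => ∑ a, z t a * algebraMap κ C (w' a i t)) := by
        rw [← gr_sum]
        refine Finset.sum_congr rfl (fun a _ => ?_)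
        rw [← hw', algebraMap_gr, ← map_mul]
        rfl
      rw [h5, ← map_add]
      rfl
    change MvPolynomial.eval (fun i => gr 𝒰 C (y' i) + ∑ a, gr 𝒰 C (fun b => z b a) *
      algebraMap (UP 𝒰 κ) (UP 𝒰 C) (w a i)) (PU j) ≠ 0
    rw [h3, hev, Ne, gr_eq_zero]
    intro h4
    obtain ⟨t, ht1, ht2⟩ := (h4.and hj).exists
    exact ht2 ht1
  obtain ⟨Δ, hΔ0, hΔ⟩ := dim_fixed (κ := UP 𝒰 κ) (C := UP 𝒰 C) 𝔅U (fun k => gr 𝒰 C (fun t => l t k))
    (col_U 𝒰 l hl) (fun i => gr 𝒰 C (fun t => β t i)) PU hS hFU (fun q x => gr 𝒰 κ (fun t => φ t q x))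
  -- representatives of the polynomial
  choose δ hδ using fun γ => gr_surj 𝒰 (Δ.coeff γ)
  set Q : ℕ → MvPolynomial (Fin S) κ := fun t =>
    ∑ γ ∈ Δ.support, MvPolynomial.monomial γ (δ γ t) with hQ
  have hQdeg : ∀ t, (Q t).totalDegree ≤ Δ.totalDegree := by
    intro t
    have h1 : (Q t).support ⊆ Δ.support := by
      simp only [hQ]
      exact support_sum_mon Δ.support (fun γ => δ γ t)
    exact Finset.sup_mono h1
  have hΔQ : Δ = ∑ γ ∈ Δ.support, MvPolynomial.monomial γ (gr 𝒰 κ (δ γ)) := by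
    conv_lhs => rw [eq_sum_mon (subset_refl Δ.support)]
    exact Finset.sum_congr rfl fun γ _ => by rw [hδ]
  have hQ0 : ∀ᶠ t in (𝒰 : Filter ℕ), Q t ≠ 0 := by
    obtain ⟨γ, hγ⟩ := MvPolynomial.ne_zero_iff.1 hΔ0
    have h1 : ¬ ∀ᶠ t in (𝒰 : Filter ℕ), δ γ t = 0 := fun h => hγ (by
      rw [← hδ γ, gr_eq_zero]; exact h)
    rw [← Ultrafilter.eventually_not] at h1
    refine h1.mono fun t ht h0 => ht ?_
    have h2 := congrArg (MvPolynomial.coeff γ) h0
    simp only [hQ] at h2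
    rwa [coeff_sum_mon, if_pos (MvPolynomial.mem_support_iff.2 hγ), MvPolynomial.coeff_zero] at h2
  have hdeg : ∀ᶠ t in (𝒰 : Filter ℕ), (Q t).totalDegree ≤ t := by
    have h1 : ∀ᶠ t in (Filter.atTop : Filter ℕ), Δ.totalDegree ≤ t :=
      Filter.eventually_ge_atTop _
    have h2 : ∀ᶠ t in (𝒰 : Filter ℕ), Δ.totalDegree ≤ t :=
      Filter.Eventually.filter_mono Nat.hyperfilter_le_atTop h1
    exact h2.mono fun t ht => (hQdeg t).trans ht
  have hbad : ∀ t, ∃ b : Fin s × Fin n → κ, b ∈ 𝔅 t ∧ (Q t ≠ 0 → (Q t).totalDegree ≤ t →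
      MvPolynomial.eval (fun q => ∑ x, φ t q x * b x) (Q t) ≠ 0 ∧
      ∀ j, MvPolynomial.eval (pb (l t) (β t) b) (P t j) = 0) := by
    intro t
    by_cases h : Q t ≠ 0 ∧ (Q t).totalDegree ≤ t
    · obtain ⟨b, h0, h1, h2⟩ := hb t (Q t) h.1 h.2
      exact ⟨b, h0, fun _ _ => ⟨h1, h2⟩⟩
    · obtain ⟨b, hb, -⟩ := hb t 1 one_ne_zero (by rw [MvPolynomial.totalDegree_one]; exact Nat.zero_le _)
      exact ⟨b, hb, fun h1 h2 => absurd ⟨h1, h2⟩ h⟩
  choose b hb𝔅 hbad using hbad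
  have hev2 : MvPolynomial.eval (fun q => ∑ x, gr 𝒰 κ (fun t => φ t q x) *
      gr 𝒰 κ (fun t => b t x)) Δ = gr 𝒰 κ (fun t =>
        MvPolynomial.eval (fun q => ∑ x, φ t q x * b t x) (Q t)) := by
    have h1 : (fun q => ∑ x, gr 𝒰 κ (fun t => φ t q x) * gr 𝒰 κ (fun t => b t x)) =
        fun q => gr 𝒰 κ (fun t => ∑ x, φ t q x * b t x) := by
      funext q
      simp only [← map_mul]
      rw [← map_sum]
      congr 1
      funext t
      rw [Finset.sum_apply]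
      rfl
    rw [h1]
    conv_lhs => rw [hΔQ]
    rw [eval_U]
  obtain ⟨j, hj⟩ := hΔ (fun x => gr 𝒰 κ (fun t => b t x)) ⟨fun x t => b t x, hb𝔅, rfl⟩ (by
    rw [hev2, Ne, gr_eq_zero]
    intro h2
    obtain ⟨t, ⟨ht1, ht2⟩, ht3⟩ := ((h2.and hQ0).and hdeg).exists
    exact (hbad t ht2 ht3).1 ht1)
  rw [hpt (fun x t => b t x), hev, Ne, gr_eq_zero, ← Ultrafilter.eventually_not] at hj
  obtain ⟨t, ⟨ht1, ht2⟩, ht3⟩ := ((hj.and hQ0).and hdeg).exists
  exact ht1 ((hbad t ht2 ht3).2 j)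

/-- the polynomials vanish on a translate, through `v`, of a space of dimension `f` defined over `κ` -/
def OnFlat (κ : Type) {C : Type} [Field κ] [Field C] [Algebra κ C] {n r : ℕ} (P : Fin r → MvPolynomial (Fin n) C)
    (f : ℕ) (v : Fin n → C) : Prop :=
  ∃ w : Fin f → Fin n → κ, LinearIndependent κ w ∧ ∀ (z : Fin f → C) (j : Fin r),
    MvPolynomial.eval (fun i => v i + ∑ a, z a * algebraMap κ C (w a i)) (P j) = 0

theorem onFlat_zero {κ C : Type} [Field κ] [Field C] [Algebra κ C] {n r : ℕ} (P : Fin r → MvPolynomial (Fin n) C)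
    (v : Fin n → C) : OnFlat κ P 0 v ↔ ∀ j, MvPolynomial.eval v (P j) = 0 := by
  constructor
  · rintro ⟨w, -, h⟩ j
    have := h 0 j
    simpa using this
  · intro h
    refine ⟨Fin.elim0, linearIndependent_empty_type, fun z j => ?_⟩
    rw [← h j]
    congr 1
    congr 1
    funext i
    simp

/-- **Dimension.** -/
theorem dim_flat (κ C : Type) [Field κ] [CharZero κ] [Field C] [CharZero C] [Algebra κ C] (s n c r d e S : ℕ)
    (hS : s * e + cs (n ^ 2 + c * n) n < S) :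
    ∃ E : ℕ, ∀ l : Fin s → C, Col κ C s n c l → ∀ (β : Fin n → C) (P : Fin r → MvPolynomial (Fin n) C),
      (∀ j, (P j).totalDegree ≤ d) → ∀ φ : Fin S → Fin s × Fin n → κ,
      ∃ Δ : MvPolynomial (Fin S) κ, Δ ≠ 0 ∧ Δ.totalDegree ≤ E ∧ ∀ b : Fin s × Fin n → κ,
        (∀ j, MvPolynomial.eval (pb l β b) (P j) = 0) → ¬ OnFlat κ P (e + 1) (pb l β b) →
        MvPolynomial.eval (fun q => ∑ x, φ q x * b x) Δ = 0 := by
  obtain ⟨E, hE⟩ := dim_unif κ C s n c r d e S hS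
  refine ⟨E, fun l hl β P hP φ => ?_⟩
  obtain ⟨Δ, h1, h2, h3⟩ := hE l hl β P hP {b | ¬ OnFlat κ P (e + 1) (pb l β b)} (by
    intro w hw b hb
    by_contra hcon
    push Not at hcon
    exact hb ⟨w, hw, fun z j => hcon j z⟩) φ
  refine ⟨Δ, h1, h2, fun b hb0 hb => ?_⟩
  by_contra h
  obtain ⟨j, hj⟩ := h3 b hb h
  exact hj (hb0 j)

/-- **Counting.** -/
theorem count_flat (κ C : Type) [Field κ] [CharZero κ] [Field C] [CharZero C] [Algebra κ C] (s n c r d e : ℕ) :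
    ∃ K : ℕ, ∀ l : Fin s → C, Col κ C s n c l → ∀ (β : Fin n → C) (P : Fin r → MvPolynomial (Fin n) C),
      (∀ j, (P j).totalDegree ≤ d) → ∀ M : ℕ, 1 ≤ M →
      Set.ncard {x : Fin s → Fin n → ℤ | (∀ k i, |x k i| ≤ M) ∧
        (∀ j, MvPolynomial.eval (fun i => β i + ∑ k, l k * (x k i : C)) (P j) = 0) ∧
        ¬ OnFlat κ P (e + 1) (fun i => β i + ∑ k, l k * (x k i : C))} ≤
        K * M ^ (s * e + cs (n ^ 2 + c * n) n) := by
  obtain ⟨E, hE⟩ := dim_flat κ C s n c r d e (s * e + cs (n ^ 2 + c * n) n + 1) (Nat.lt_succ_self _)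
  obtain ⟨K, hK⟩ := count_mat κ (s * e + cs (n ^ 2 + c * n) n) E s n
  refine ⟨K, fun l hl β P hP M hM => ?_⟩
  have h1 := hK {b | (∀ j, MvPolynomial.eval (pb l β b) (P j) = 0) ∧ ¬ OnFlat κ P (e + 1) (pb l β b)} (by
    intro φ
    obtain ⟨Δ, h1, h2, h3⟩ := hE l hl β P hP φ
    exact ⟨Δ, h1, h2, fun b hb => h3 b hb.1 hb.2⟩) M hM
  have h2 : {x : Fin s → Fin n → ℤ | (∀ k i, |x k i| ≤ M) ∧
        (∀ j, MvPolynomial.eval (fun i => β i + ∑ k, l k * (x k i : C)) (P j) = 0) ∧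
        ¬ OnFlat κ P (e + 1) (fun i => β i + ∑ k, l k * (x k i : C))} =
      {a : Fin s → Fin n → ℤ | (∀ i j, |a i j| ≤ M) ∧
        (fun x : Fin s × Fin n => (a x.1 x.2 : κ)) ∈
          {b | (∀ j, MvPolynomial.eval (pb l β b) (P j) = 0) ∧ ¬ OnFlat κ P (e + 1) (pb l β b)}} := by
    have h3 : ∀ x : Fin s → Fin n → ℤ, pb l β (fun y : Fin s × Fin n => (x y.1 y.2 : κ)) =
        fun i => β i + ∑ k, l k * (x k i : C) := by
      intro x
      funext i
      simp only [pb, map_intCast]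
    ext x
    simp only [Set.mem_ofPred_eq, h3]
  rw [h2]
  exact h1

end Pool.Agent.D0H4.Rk
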