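import Mathlib

/-!
# Families of subspaces all of whose transversals have small rank
-/

set_option autoImplicit false

namespace Pool.Agent.D0H4.Rk

open Module Finset

universe u

theorem sub_sum {F : Type*} [Field F] : ∀ (k : ℕ) (E : Type u) [AddCommGroup E] [Module F E]
    [FiniteDimensional F E] (ρ : ℕ) (U : Fin k → Submodule F E), k ≤ finrank F E →
    (∀ u : Fin k → E, (∀ i, u i ∈ U i) → finrank F (Submodule.span F (Set.range u)) ≤ ρ) →
    ∑ i, finrank F (U i) ≤ ρ * finrank F E := by
  intro k
  induction k with
  | zero =>
    intro E _ _ _ ρ U _ _
    simp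
  | succ k ih =>
    intro E _ _ _ ρ U hk hU
    by_cases hρ : k + 1 ≤ ρ
    · calc ∑ i, finrank F (U i) ≤ ∑ _i : Fin (k + 1), finrank F E :=
            sum_le_sum (fun i _ => Submodule.finrank_le (U i))
        _ = (k + 1) * finrank F E := by simp
        _ ≤ ρ * finrank F E := Nat.mul_le_mul_right _ hρ
    · push Not at hρ
      by_cases hbot : ∃ i, U i = ⊥
      · obtain ⟨i, hi⟩ := hbot
        rw [Fin.sum_univ_succAbove _ i, hi, finrank_bot, zero_add]
        refine ih E ρ (fun j => U (i.succAbove j)) (by omega) (fun u hu => ?_)
        have h1 := hU (Fin.insertNth (α := fun _ => E) i 0 u) (by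
          intro j
          rcases eq_or_ne j i with h | h
          · subst h
            rw [Fin.insertNth_apply_same]
            exact Submodule.zero_mem _
          · obtain ⟨j', rfl⟩ := Fin.exists_succAbove_eq h
            rw [Fin.insertNth_apply_succAbove]
            exact hu j')
        refine le_trans (Submodule.finrank_mono (Submodule.span_mono ?_)) h1
        rintro _ ⟨j, rfl⟩
        exact ⟨i.succAbove j, Fin.insertNth_apply_succAbove ..⟩
      · push Not at hbot
        obtain ⟨i, hi⟩ := Finite.exists_min (fun i => finrank F (U i))
        obtain ⟨v, hv, hv0⟩ := (U i).ne_bot_iff.mp (hbot i)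
        set L : Submodule F E := Submodule.span F {v} with hL
        have hL1 : finrank F L = 1 := finrank_span_singleton hv0
        have hq := Submodule.finrank_quotient_add_finrank L
        set l := finrank F E with hl
        -- the images
        have hmap : ∀ S : Submodule F E, finrank F S ≤ finrank F (S.map L.mkQ) + 1 := by
          intro S
          have h1 := LinearMap.finrank_range_add_finrank_ker (L.mkQ.domRestrict S)
          rw [LinearMap.range_domRestrict] at h1
          have h2 : finrank F (LinearMap.ker (L.mkQ.domRestrict S)) ≤ finrank F L := by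
            let ψ : LinearMap.ker (L.mkQ.domRestrict S) →ₗ[F] L :=
              LinearMap.codRestrict L (S.subtype ∘ₗ (LinearMap.ker (L.mkQ.domRestrict S)).subtype) (by
                intro x
                have h5 : L.mkQ ((x : S) : E) = 0 := x.2
                rwa [Submodule.mkQ_apply, Submodule.Quotient.mk_eq_zero] at h5)
            refine LinearMap.finrank_le_finrank_of_injective (f := ψ) ?_
            intro x x' h
            apply Subtype.ext
            apply Subtype.ext
            exact congrArg (fun z : L => (z : E)) h
          omega
        have hmap2 : ∀ S : Submodule F E, v ∈ S → finrank F (S.map L.mkQ) + 1 ≤ finrank F S := by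
          intro S hS
          have h1 := LinearMap.finrank_range_add_finrank_ker (L.mkQ.domRestrict S)
          rw [LinearMap.range_domRestrict] at h1
          have h2 : 0 < finrank F (LinearMap.ker (L.mkQ.domRestrict S)) := by
            have h3 : (⟨v, hS⟩ : S) ∈ LinearMap.ker (L.mkQ.domRestrict S) := by
              rw [LinearMap.mem_ker, LinearMap.domRestrict_apply, Submodule.mkQ_apply,
                Submodule.Quotient.mk_eq_zero]
              exact Submodule.mem_span_singleton_self v
            refine Submodule.one_le_finrank_iff.mpr ?_
            intro h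
            rw [h, Submodule.mem_bot] at h3
            exact hv0 (congrArg (fun z : S => (z : E)) h3)
          omega
        have hρ1 : 1 ≤ ρ := by
          have hch : ∀ j, ∃ x ∈ U j, x ≠ 0 := fun j => (U j).ne_bot_iff.mp (hbot j)
          choose x hx hx0 using hch
          have h1 := hU x hx
          have h2 : 1 ≤ finrank F (Submodule.span F (Set.range x)) := by
            refine Submodule.one_le_finrank_iff.mpr ?_
            intro h
            have h3 : x i ∈ Submodule.span F (Set.range x) := Submodule.subset_span ⟨i, rfl⟩
            rw [h, Submodule.mem_bot] at h3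
            exact hx0 i h3
          omega
        have h1 := ih (E ⧸ L) (ρ - 1) (fun j => (U (i.succAbove j)).map L.mkQ) (by omega) (by
          intro u' hu'
          have hch : ∀ j, ∃ x ∈ U (i.succAbove j), L.mkQ x = u' j := fun j => by
            obtain ⟨x, hx, h⟩ := hu' j
            exact ⟨x, hx, h⟩
          choose x hx hxu using hch
          set w : Fin (k + 1) → E := Fin.insertNth (α := fun _ => E) i v x with hw
          have hwU : ∀ j, w j ∈ U j := by
            intro j
            rcases eq_or_ne j i with h | h
            · subst h
              rw [hw, Fin.insertNth_apply_same]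
              exact hv
            · obtain ⟨j', rfl⟩ := Fin.exists_succAbove_eq h
              rw [hw, Fin.insertNth_apply_succAbove]
              exact hx j'
          have h2 := hU w hwU
          have h3 := hmap2 (Submodule.span F (Set.range w))
            (Submodule.subset_span ⟨i, by rw [hw, Fin.insertNth_apply_same]⟩)
          have h4 : Submodule.span F (Set.range u') ≤ (Submodule.span F (Set.range w)).map L.mkQ := by
            rw [Submodule.span_le]
            rintro _ ⟨j, rfl⟩
            refine ⟨x j, Submodule.subset_span ⟨i.succAbove j, ?_⟩, hxu j⟩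
            rw [hw, Fin.insertNth_apply_succAbove]
          have h5 := Submodule.finrank_mono h4
          omega)
        have hEL : finrank F (E ⧸ L) = l - 1 := by omega
        rw [hEL] at h1
        have h2 : ∑ j, finrank F (U (i.succAbove j)) ≤ (ρ - 1) * (l - 1) + k := by
          calc ∑ j, finrank F (U (i.succAbove j))
              ≤ ∑ j, (finrank F ((U (i.succAbove j)).map L.mkQ) + 1) := sum_le_sum (fun j _ => hmap _)
            _ = ∑ j, finrank F ((U (i.succAbove j)).map L.mkQ) + k := by
                rw [sum_add_distrib]; simp
            _ ≤ _ := Nat.add_le_add_right h1 k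
        have h3 : k * finrank F (U i) ≤ ∑ j, finrank F (U (i.succAbove j)) := by
          calc k * finrank F (U i) = ∑ _j : Fin k, finrank F (U i) := by simp
            _ ≤ _ := sum_le_sum (fun j _ => hi _)
        rw [Fin.sum_univ_succAbove _ i]
        set m := finrank F (U i)
        set S := ∑ j, finrank F (U (i.succAbove j))
        obtain ⟨r, rfl⟩ : ∃ r, ρ = r + 1 := ⟨ρ - 1, by omega⟩
        obtain ⟨t, ht⟩ : ∃ t, l = k + 1 + t := ⟨l - (k + 1), by omega⟩
        obtain ⟨q, rfl⟩ : ∃ q, k = r + 1 + q := ⟨k - (r + 1), by omega⟩
        rw [ht] at h2 ⊢
        have e1 : r + 1 - 1 = r := by omega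
        have e2 : r + 1 + q + 1 + t - 1 = r + 1 + q + t := by omega
        rw [e1, e2] at h2
        -- `k (S + m) ≤ (k + 1) S`
        have h4 : (r + 1 + q) * (m + S) ≤ (r + 1 + q) * ((r + 1) * (r + 1 + q + 1 + t)) := by
          have h5 : (r + 1 + q) * (m + S) ≤ (r + 1 + q + 1) * S := by nlinarith
          refine h5.trans ?_
          have h6 : (r + 1 + q + 1) * S ≤ (r + 1 + q + 1) * (r * (r + 1 + q + t) + (r + 1 + q)) :=
            Nat.mul_le_mul_left _ h2
          refine h6.trans ?_
          have : (r + 1 + q) * ((r + 1) * (r + 1 + q + 1 + t)) =
              (r + 1 + q + 1) * (r * (r + 1 + q + t) + (r + 1 + q)) + (q + 1) * t := by ring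
          rw [this]
          exact Nat.le_add_right _ _
        exact Nat.le_of_mul_le_mul_left h4 (by omega)

end Pool.Agent.D0H4.Rk
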