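import Pool.Agent.D0H4.Rk.Mul
import Pool.Agent.D0H4.Rk.Sub

/-!
# Matrices of small rank
-/

set_option autoImplicit false

namespace Pool.Agent.D0H4.Rk

open Module Finset
open Pool.Agent.W254.Ab (QA mem_QA)
open Pool.Agent.W254.PA (Hyp)

variable {Ω : Type} [Field Ω] [CharZero Ω] {V₀ : Submodule (QA Ω) Ω}

/-- the determinant of `ρ + 1` rows of `y`, mapped by `L` -/
noncomputable def mf (Ω : Type) [Field Ω] [CharZero Ω] {k n ρ : ℕ} (I : Fin (ρ + 1) → Fin k)
    (L : Matrix (Fin (ρ + 1)) (Fin n) ℚ) (y : Fin k → Fin n → Ω) : Ω :=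
  Matrix.det (Matrix.of (fun a b => ∑ j, ((L b j : ℚ) : Ω) * y (I a) j))

theorem mf_multi {k n ρ : ℕ} (I : Fin (ρ + 1) → Fin k) (hI : Function.Injective I)
    (L : Matrix (Fin (ρ + 1)) (Fin n) ℚ) : Multi (mf Ω I L) := by
  classical
  intro i
  by_cases h : ∃ a, I a = i
  · left
    obtain ⟨a₀, rfl⟩ := h
    intro y
    have key : ∀ z, mf Ω I L (Function.update y (I a₀) z) =
        Matrix.det (Matrix.updateRow (Matrix.of (fun a b => ∑ j, ((L b j : ℚ) : Ω) * y (I a) j)) a₀
          (fun b => ∑ j, ((L b j : ℚ) : Ω) * z j)) := by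
      intro z
      rw [mf]
      congr 1
      ext a b
      rw [Matrix.of_apply]
      by_cases ha : a = a₀
      · subst ha
        rw [Matrix.updateRow_self, Function.update_self]
      · rw [Matrix.updateRow_ne ha, Function.update_of_ne (fun h => ha (hI h)), Matrix.of_apply]
    constructor
    · intro z z'
      rw [key, key, key, ← Matrix.det_updateRow_add]
      congr 2
      funext b
      simp only [Pi.add_apply, mul_add, sum_add_distrib]
    · intro c z
      rw [key, key, smul_eq_mul, ← Matrix.det_updateRow_smul]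
      congr 2
      funext b
      simp only [Pi.smul_apply, smul_eq_mul, mul_sum]
      refine sum_congr rfl (fun j _ => ?_)
      ring
  · right
    intro y z
    rw [mf, mf]
    congr 2
    funext a b
    refine sum_congr rfl (fun j _ => ?_)
    rw [Function.update_of_ne]
    intro h2
    exact h ⟨a, h2⟩

theorem mf_zero {k n ρ : ℕ} (I : Fin (ρ + 1) → Fin k) (L : Matrix (Fin (ρ + 1)) (Fin n) ℚ)
    (y : Fin k → Fin n → Ω) (hy : (Matrix.of y).rank ≤ ρ) : mf Ω I L y = 0 := by
  by_contra hne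
  have h1 : (Matrix.of (fun a b => ∑ j, ((L b j : ℚ) : Ω) * y (I a) j)) =
      (Matrix.of (fun a j => y (I a) j)) * (L.map (fun q : ℚ => (q : Ω))).transpose := by
    ext a b
    rw [Matrix.mul_apply, Matrix.of_apply]
    refine sum_congr rfl (fun j _ => ?_)
    rw [Matrix.transpose_apply, Matrix.map_apply, Matrix.of_apply, mul_comm]
  have h2 : (Matrix.of (fun a b => ∑ j, ((L b j : ℚ) : Ω) * y (I a) j)).rank = ρ + 1 := by
    have := Matrix.rank_of_isUnit (Matrix.of (fun a b => ∑ j, ((L b j : ℚ) : Ω) * y (I a) j))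
      ((Matrix.isUnit_iff_isUnit_det _).mpr (isUnit_iff_ne_zero.mpr hne))
    rwa [Fintype.card_fin] at this
  have h3 : (Matrix.of (fun a j => y (I a) j)).rank ≤ (Matrix.of y).rank := by
    rw [Matrix.rank_eq_finrank_span_row, Matrix.rank_eq_finrank_span_row]
    refine Submodule.finrank_mono (Submodule.span_mono ?_)
    rintro _ ⟨a, rfl⟩
    exact ⟨I a, rfl⟩
  have h4 := Matrix.rank_mul_le_left (Matrix.of (fun a j => y (I a) j))
    (L.map (fun q : ℚ => (q : Ω))).transpose
  rw [← h1, h2] at h4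
  omega

theorem mf_van {k n ρ : ℕ} (u : Fin k → Fin n → ℚ)
    (hu : ∀ (I : Fin (ρ + 1) → Fin k) (L : Matrix (Fin (ρ + 1)) (Fin n) ℚ), Function.Injective I →
      mf Ω I L (fun i j => ((u i j : ℚ) : Ω)) = 0) :
    finrank ℚ (Submodule.span ℚ (Set.range u)) ≤ ρ := by
  classical
  by_contra hcon
  push Not at hcon
  obtain ⟨κ, a, ha, ha1, ha2⟩ := exists_linearIndependent' ℚ u
  haveI : Fintype κ := Fintype.ofInjective a ha
  rw [← ha1, finrank_span_eq_card ha2] at hcon
  obtain ⟨g⟩ : Nonempty (Fin (ρ + 1) ↪ κ) :=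
    Function.Embedding.nonempty_of_card_le (by rw [Fintype.card_fin]; exact hcon)
  have hw : LinearIndependent ℚ (fun r => u (a (g r))) := ha2.comp g g.injective
  obtain ⟨φ, hφ⟩ := LinearMap.exists_leftInverse_of_injective
    (Fintype.linearCombination ℚ (fun r => u (a (g r)))) (by
      rw [LinearMap.ker_eq_bot']
      intro c hc
      funext r
      rw [Fintype.linearCombination_apply] at hc
      exact Fintype.linearIndependent_iff.mp hw c hc r)
  have hφ2 : ∀ r, φ (u (a (g r))) = Pi.single r 1 := by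
    intro r
    have h1 := LinearMap.congr_fun hφ (Pi.single r 1)
    rw [LinearMap.comp_apply, Fintype.linearCombination_apply_single, one_smul] at h1
    exact h1
  have h1 := hu (fun r => a (g r)) (LinearMap.toMatrix' φ) (fun r r' h => g.injective (ha h))
  have h2 : (Matrix.of (fun r b => ∑ j, ((LinearMap.toMatrix' φ b j : ℚ) : Ω) * ((u (a (g r)) j : ℚ) : Ω))) =
      (1 : Matrix (Fin (ρ + 1)) (Fin (ρ + 1)) Ω) := by
    ext r b
    rw [Matrix.of_apply]
    have h3 : φ (u (a (g r))) b = ∑ j, LinearMap.toMatrix' φ b j * u (a (g r)) j := by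
      have : φ (u (a (g r))) = (LinearMap.toMatrix' φ).mulVec (u (a (g r))) := by
        rw [← Matrix.toLin'_apply, Matrix.toLin'_toMatrix']
      rw [this, Matrix.mulVec, dotProduct]
    have h4 : ∑ j, ((LinearMap.toMatrix' φ b j : ℚ) : Ω) * ((u (a (g r)) j : ℚ) : Ω) =
        ((φ (u (a (g r))) b : ℚ) : Ω) := by
      rw [h3]
      push_cast
      rfl
    rw [h4, hφ2, Matrix.one_apply, Pi.single_apply]
    by_cases h : b = r
    · subst h
      simp
    · rw [if_neg h, if_neg (fun h' => h h'.symm)]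
      simp
  rw [mf, h2, Matrix.det_one] at h1
  exact one_ne_zero h1

open Classical in
/-- **Matrices of small rank.** -/
theorem rank_count (hV : Hyp V₀) {n : ℕ} {σ : Type} [Fintype σ] [DecidableEq σ] (l : σ → Ω)
    (hl : ∀ k, l k ∈ V₀) (hli : LinearIndependent (QA Ω) l) (M H : ℕ) (hM : 1 ≤ M)
    (hH : 8 * (2 * n ^ 4 + 1) ^ 2 * M ^ 2 ≤ H) (k ρ : ℕ) (hk : k ≤ n) (β : Fin k → Fin n → Ω) :
    #{x ∈ boxd k σ n M | (Matrix.of (pt l β x)).rank ≤ ρ} ≤
      ((2 * H + 1) ^ (n * n) * (4 * M + 1) ^ (2 * n ^ 4)) ^ k * (4 * M + 1) ^ (Fintype.card σ * (ρ * n)) := by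
  set 𝓕 : Set ((Fin k → Fin n → Ω) → Ω) :=
    {f | ∃ (I : Fin (ρ + 1) → Fin k) (L : Matrix (Fin (ρ + 1)) (Fin n) ℚ), Function.Injective I ∧ f = mf Ω I L}
    with h𝓕
  have h1 := multi_count hV l hl hli M H hM hH k 𝓕 (by
    rintro _ ⟨I, L, hI, rfl⟩
    exact mf_multi I hI L) (ρ * n) (by
    intro U hU
    have h2 := sub_sum k (Fin n → ℚ) ρ U (by rw [Module.finrank_fintype_fun_eq_card, Fintype.card_fin]; exact hk)
      (fun u hu => mf_van (Ω := Ω) u (fun I L hI => hU _ ⟨I, L, hI, rfl⟩ u hu))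
    rwa [Module.finrank_fintype_fun_eq_card, Fintype.card_fin] at h2) β
  refine (card_le_card ?_).trans h1
  intro x hx
  rw [mem_filter] at hx ⊢
  refine ⟨hx.1, ?_⟩
  rintro _ ⟨I, L, -, rfl⟩
  exact mf_zero I L _ hx.2

end Pool.Agent.D0H4.Rk
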