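import Pool.Agent.D0H4.Rk.Unif
import Pool.Agent.D0H4.Rk.Rank
import Pool.Agent.TH160.TowP.CFull

/-!
# Zeros of polynomials at combinations of logarithms
-/

set_option autoImplicit false

namespace Pool.Agent.D0H4.Rk

open Module Finset
open Pool.Agent.W254.Ab (QA mem_QA)
open Pool.Agent.W254.PA (Hyp)
open Pool.Agent.H301R2.SSE (Lt)
open Pool.Agent.TH160.TowP (hyp_lt)

section

variable {Ω : Type} [Field Ω] [CharZero Ω] {V₀ : Submodule (QA Ω) Ω}

theorem col_alg (hV : Hyp V₀) {n s : ℕ} (l : Fin s → Ω) (hl : ∀ k, l k ∈ V₀) (hli : LinearIndependent (QA Ω) l) :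
    Col (QA Ω) Ω s n (n ^ 3) l := by
  intro V
  obtain ⟨K, hK, h⟩ := columns hV l hl hli V
  exact ⟨K, hK, fun x hx hxK => h x hx hxK⟩

theorem col_rat (hV : Hyp V₀) {n s : ℕ} (l : Fin s → Ω) (hl : ∀ k, l k ∈ V₀) (hli : LinearIndependent (QA Ω) l) :
    Col ℚ Ω s n (n ^ 3) l := by
  intro V
  obtain ⟨K, hK, h⟩ := col_alg hV l hl hli V
  have hc : ∀ z : ℚ, algebraMap (QA Ω) Ω (algebraMap ℚ (QA Ω) z) = algebraMap ℚ Ω z := fun z =>
    (IsScalarTower.algebraMap_apply ℚ (QA Ω) Ω z).symm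
  refine ⟨K, hK, fun x hx hxK => ?_⟩
  have h1 := h (fun k i => algebraMap ℚ (QA Ω) (x k i)) (by simp only [hc]; exact hx)
    (fun k hk => by simp only [hc]; exact hxK k hk)
  simp only [hc] at h1
  exact h1

end

/-- few integral vectors in a rational space -/
theorem lower {n r f : ℕ} (P : Fin r → MvPolynomial (Fin n) ℂ) (β : Fin n → ℂ) (h : OnFlat ℚ P f β) (s : ℕ) :
    ∃ c : ℝ, 0 < c ∧ ∀ (l : Fin s → ℂ) (M : ℕ), c * (M : ℝ) ^ (s * f) ≤
      Set.ncard {x : Fin s → Fin n → ℤ | (∀ k i, |x k i| ≤ M) ∧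
        OnFlat ℚ P 0 (fun i => β i + ∑ k, l k * (x k i : ℂ))} := by
  classical
  obtain ⟨w, hw, hP⟩ := h
  have h1 : ∀ a, ∃ (N : ℤ) (g : Fin n → ℤ), N ≠ 0 ∧ ∀ i, (g i : ℚ) = (N : ℚ) * w a i := by
    intro a
    obtain ⟨N, hN⟩ := IsLocalization.exist_integer_multiples_of_finite (nonZeroDivisors ℤ)
      (fun j : Fin n => w a j)
    choose g hg using hN
    refine ⟨(N : ℤ), g, nonZeroDivisors.coe_ne_zero N, fun i => ?_⟩
    have := hg i
    simp only [eq_intCast, zsmul_eq_mul] at this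
    exact this
  choose N g hN hg using h1
  obtain ⟨H, hH⟩ : ∃ H : ℕ, ∀ a i, |g a i| ≤ H := by
    refine ⟨∑ a, ∑ i, (g a i).natAbs, fun a i => ?_⟩
    rw [Int.abs_eq_natAbs]
    have h1 : (g a i).natAbs ≤ ∑ i, (g a i).natAbs :=
      single_le_sum (f := fun i => (g a i).natAbs) (fun _ _ => Nat.zero_le _) (mem_univ i)
    have h2 : ∑ i, (g a i).natAbs ≤ ∑ a, ∑ i, (g a i).natAbs :=
      single_le_sum (f := fun a => ∑ i, (g a i).natAbs) (fun _ _ => Nat.zero_le _) (mem_univ a)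
    exact_mod_cast h1.trans h2
  set D : ℕ := f * H + 1 with hD
  refine ⟨(1 / (D : ℝ)) ^ (s * f), by positivity, fun l M => ?_⟩
  set T := {x : Fin s → Fin n → ℤ | (∀ k i, |x k i| ≤ M) ∧
        OnFlat ℚ P 0 (fun i => β i + ∑ k, l k * (x k i : ℂ))} with hT
  have hTf : T.Finite := by
    have h1 : ((box1 (Fin s) n M : Finset (Fin s → Fin n → ℤ)) : Set (Fin s → Fin n → ℤ)).Finite :=
      Finset.finite_toSet _
    exact h1.subset fun x hx => mem_coe.mpr ((mem_box1 x).mpr hx.1)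
  set M' := M / D with hM'
  set dom : Finset (Fin s → Fin f → ℕ) :=
    Fintype.piFinset (fun _ => Fintype.piFinset (fun _ => Finset.range (M' + 1))) with hdom
  have hcard : dom.card = (M' + 1) ^ (s * f) := by
    rw [hdom]
    simp only [Fintype.card_piFinset, prod_const, card_univ, card_range, Fintype.card_fin]
    rw [mul_comm, pow_mul]
  have hle : dom.card ≤ T.ncard := by
    rw [Set.ncard_eq_toFinset_card T hTf]
    refine card_le_card_of_injOn (fun m k i => ∑ a, (m k a : ℤ) * g a i) ?_ ?_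
    · intro m hm
      rw [mem_coe, hdom, Fintype.mem_piFinset] at hm
      rw [mem_coe, Set.Finite.mem_toFinset]
      constructor
      · intro k i
        have h1 : ∀ a ∈ (univ : Finset (Fin f)), |(m k a : ℤ) * g a i| ≤ (M' : ℤ) * H := by
          intro a _
          rw [abs_mul]
          have h2 := Finset.mem_range.mp (Fintype.mem_piFinset.mp (hm k) a)
          refine mul_le_mul ?_ (hH a i) (abs_nonneg _) (by positivity)
          rw [abs_of_nonneg (by positivity)]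
          exact_mod_cast Nat.lt_succ_iff.mp h2
        refine (Finset.abs_sum_le_sum_abs _ _).trans ((Finset.sum_le_card_nsmul _ _ _ h1).trans ?_)
        rw [card_univ, Fintype.card_fin, nsmul_eq_mul]
        have h3 : f * (M' * H) ≤ M := by
          calc f * (M' * H) = (f * H) * M' := by ring
            _ ≤ D * M' := Nat.mul_le_mul_right _ (by omega)
            _ ≤ M := Nat.mul_div_le M D
        exact_mod_cast h3
      · rw [onFlat_zero]
        intro j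
        rw [← hP (fun a => (∑ k, l k * (m k a : ℂ)) * (N a : ℂ)) j]
        congr 1
        congr 1
        funext i
        congr 1
        have h4 : ∀ a, (g a i : ℂ) = (N a : ℂ) * algebraMap ℚ ℂ (w a i) := by
          intro a
          have := congrArg (algebraMap ℚ ℂ) (hg a i)
          simpa using this
        push_cast
        simp only [h4, mul_sum, sum_mul]
        rw [sum_comm]
        refine sum_congr rfl (fun a _ => sum_congr rfl (fun k _ => ?_))
        ring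
    · intro m _ m' _ hmm
      funext k a
      have h1 : ∑ a, (((m k a : ℚ) - (m' k a : ℚ)) * (N a : ℚ)) • w a = 0 := by
        funext i
        have h2 := congrFun (congrFun hmm k) i
        simp only [] at h2
        have h3 : (∑ a, (m k a : ℚ) * (g a i : ℚ)) = ∑ a, (m' k a : ℚ) * (g a i : ℚ) := by
          exact_mod_cast h2
        simp only [hg] at h3
        rw [Finset.sum_apply, Pi.zero_apply, ← sub_eq_zero.mpr h3, ← sum_sub_distrib]
        refine sum_congr rfl (fun a _ => ?_)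
        rw [Pi.smul_apply, smul_eq_mul]
        ring
      have h4 := Fintype.linearIndependent_iff.mp hw _ h1 a
      have h5 : ((N a : ℤ) : ℚ) ≠ 0 := by exact_mod_cast hN a
      exact_mod_cast sub_eq_zero.mp ((mul_eq_zero.mp h4).resolve_right h5)
  have h1 : (M : ℝ) / D ≤ M' + 1 := by
    rw [div_le_iff₀ (by positivity)]
    have := (Nat.lt_mul_div_succ M (b := D) (by omega)).le
    have h2 : (M : ℝ) ≤ D * ((M / D : ℕ) + 1) := by exact_mod_cast this
    rw [mul_comm]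
    exact h2
  calc (1 / (D : ℝ)) ^ (s * f) * (M : ℝ) ^ (s * f) = ((M : ℝ) / D) ^ (s * f) := by
        rw [← mul_pow]
        congr 1
        ring
    _ ≤ ((M' : ℝ) + 1) ^ (s * f) := pow_le_pow_left₀ (by positivity) h1 _
    _ = (dom.card : ℝ) := by rw [hcard]; push_cast; rfl
    _ ≤ _ := by exact_mod_cast hle

/-- **Counting, with further numbers.** -/
theorem count_final (s m n r d e : ℕ) : ∃ C : ℕ, ∀ l : Fin s → ℂ, (∀ k, l k ∈ Lt) →
    LinearIndependent (QA ℂ) l → ∀ (p : Fin m → ℂ) (β : Fin n → ℂ) (P : Fin r → MvPolynomial (Fin n) ℂ),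
    (∀ j, (P j).totalDegree ≤ d) → ∀ M : ℕ, 1 ≤ M →
    Set.ncard {x : Fin s ⊕ Fin m → Fin n → ℤ | (∀ k i, |x k i| ≤ M) ∧
      OnFlat ℚ P 0 (fun i => β i + ∑ k, l k * (x (Sum.inl k) i : ℂ) + ∑ k, p k * (x (Sum.inr k) i : ℂ)) ∧
      ¬ OnFlat ℚ P (e + 1)
        (fun i => β i + ∑ k, l k * (x (Sum.inl k) i : ℂ) + ∑ k, p k * (x (Sum.inr k) i : ℂ))} ≤
      C * M ^ (s * e + m * n + (2 ^ n - 1) * (n ^ 4 + n ^ 2)) := by
  classical
  obtain ⟨K, hK⟩ := count_flat ℚ ℂ s n (n ^ 3) r d e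
  refine ⟨K * 3 ^ (m * n), fun l hl hli p β P hP M hM => ?_⟩
  have hcol := col_rat (n := n) hyp_lt l hl hli
  set T := {x : Fin s ⊕ Fin m → Fin n → ℤ | (∀ k i, |x k i| ≤ M) ∧
      OnFlat ℚ P 0 (fun i => β i + ∑ k, l k * (x (Sum.inl k) i : ℂ) + ∑ k, p k * (x (Sum.inr k) i : ℂ)) ∧
      ¬ OnFlat ℚ P (e + 1)
        (fun i => β i + ∑ k, l k * (x (Sum.inl k) i : ℂ) + ∑ k, p k * (x (Sum.inr k) i : ℂ))} with hT
  have hTf : T.Finite := by
    have h1 : ((box1 (Fin s ⊕ Fin m) n M : Finset (Fin s ⊕ Fin m → Fin n → ℤ)) :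
        Set (Fin s ⊕ Fin m → Fin n → ℤ)).Finite := Finset.finite_toSet _
    exact h1.subset fun x hx => mem_coe.mpr ((mem_box1 x).mpr hx.1)
  rw [Set.ncard_eq_toFinset_card T hTf]
  have h1 := Finset.card_le_mul_card_image_of_maps_to (s := hTf.toFinset) (t := box1 (Fin m) n M)
    (f := fun x k => x (Sum.inr k)) (by
      intro x hx
      rw [Set.Finite.mem_toFinset] at hx
      exact (mem_box1 _).mpr fun k i => hx.1 _ _) (K * M ^ (s * e + cs (n ^ 2 + n ^ 3 * n) n)) (by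
      intro x' hx'
      refine le_trans ?_ (hK l hcol (fun i => β i + ∑ k, p k * (x' k i : ℂ)) P hP M hM)
      set T' := {x : Fin s → Fin n → ℤ | (∀ k i, |x k i| ≤ M) ∧
        (∀ j, MvPolynomial.eval (fun i => β i + ∑ k, p k * (x' k i : ℂ) + ∑ k, l k * (x k i : ℂ)) (P j) = 0) ∧
        ¬ OnFlat ℚ P (e + 1) (fun i => β i + ∑ k, p k * (x' k i : ℂ) + ∑ k, l k * (x k i : ℂ))} with hT'
      have hT'f : T'.Finite := by
        have h1 : ((box1 (Fin s) n M : Finset (Fin s → Fin n → ℤ)) : Set (Fin s → Fin n → ℤ)).Finite :=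
          Finset.finite_toSet _
        exact h1.subset fun x hx => mem_coe.mpr ((mem_box1 x).mpr hx.1)
      rw [Set.ncard_eq_toFinset_card T' hT'f]
      refine card_le_card_of_injOn (fun x k => x (Sum.inl k)) ?_ ?_
      · intro x hx
        rw [mem_coe, mem_filter, Set.Finite.mem_toFinset] at hx
        obtain ⟨⟨h1, h2, h3⟩, h4⟩ := hx
        rw [mem_coe, Set.Finite.mem_toFinset]
        have h5 : (fun i => β i + ∑ k, l k * (x (Sum.inl k) i : ℂ) + ∑ k, p k * (x (Sum.inr k) i : ℂ)) =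
            fun i => β i + ∑ k, p k * (x' k i : ℂ) + ∑ k, l k * (x (Sum.inl k) i : ℂ) := by
          funext i
          rw [← h4]
          ring
        rw [h5] at h2 h3
        exact ⟨fun k i => h1 _ _, (onFlat_zero P _).mp h2, h3⟩
      · intro x hx y hy hxy
        rw [mem_coe, mem_filter] at hx hy
        funext k i
        rcases k with k | k
        · exact congrFun (congrFun hxy k) i
        · have h6 := hx.2.trans hy.2.symm
          exact congrFun (congrFun h6 k) i)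
  have h2 : (box1 (Fin m) n M).card = (2 * M + 1) ^ (m * n) := by
    have h3 : ((M : ℤ) + 1 - -(M : ℤ)).toNat = 2 * M + 1 := by omega
    rw [box1]
    simp only [Fintype.card_piFinset, prod_const, card_univ, Int.card_Icc, h3, Fintype.card_fin]
    rw [← pow_mul, Nat.mul_comm n m]
  rw [h2, cs_eq] at h1
  refine h1.trans ?_
  have h3 : (2 * M + 1) ^ (m * n) ≤ (3 * M) ^ (m * n) := Nat.pow_le_pow_left (by omega) _
  refine (Nat.mul_le_mul_left _ h3).trans (le_of_eq ?_)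
  have h4 : n ^ 2 + n ^ 3 * n = n ^ 4 + n ^ 2 := by ring
  rw [h4, mul_pow, pow_add, pow_add, pow_add]
  ring

/-- **Dimension, algebraic coefficients.** -/
theorem dim_final (s n r d e S : ℕ) (hS : s * e + (2 ^ n - 1) * (n ^ 4 + n ^ 2) < S) :
    ∃ E : ℕ, ∀ l : Fin s → ℂ, (∀ k, l k ∈ Lt) → LinearIndependent (QA ℂ) l →
    ∀ (β : Fin n → ℂ) (P : Fin r → MvPolynomial (Fin n) ℂ), (∀ j, (P j).totalDegree ≤ d) →
    ∀ φ : Fin S → Fin s × Fin n → QA ℂ,
    ∃ Δ : MvPolynomial (Fin S) (QA ℂ), Δ ≠ 0 ∧ Δ.totalDegree ≤ E ∧ ∀ b : Fin s × Fin n → QA ℂ,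
      OnFlat (QA ℂ) P 0 (fun i => β i + ∑ k, l k * (b (k, i) : ℂ)) →
      ¬ OnFlat (QA ℂ) P (e + 1) (fun i => β i + ∑ k, l k * (b (k, i) : ℂ)) →
      MvPolynomial.eval (fun q => ∑ x, φ q x * b x) Δ = 0 := by
  have h4 : n ^ 2 + n ^ 3 * n = n ^ 4 + n ^ 2 := by ring
  obtain ⟨E, hE⟩ := dim_flat (QA ℂ) ℂ s n (n ^ 3) r d e S (by rw [cs_eq, h4]; exact hS)
  refine ⟨E, fun l hl hli β P hP φ => ?_⟩
  obtain ⟨Δ, h1, h2, h3⟩ := hE l (col_alg hyp_lt l hl hli) β P hP φ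
  exact ⟨Δ, h1, h2, fun b hb hb' => h3 b ((onFlat_zero P _).mp hb) hb'⟩

open Classical in
/-- **Matrices.** -/
theorem rank_final (s k n ρ : ℕ) (hk : k ≤ n) : ∃ C : ℕ, ∀ l : Fin s → ℂ, (∀ k, l k ∈ Lt) →
    LinearIndependent (QA ℂ) l → ∀ (β : Fin k → Fin n → ℂ) (M : ℕ), 1 ≤ M →
    Set.ncard {x : Fin k → Fin s → Fin n → ℤ | (∀ i t j, |x i t j| ≤ M) ∧
      (Matrix.of (fun i j => β i j + ∑ t, l t * (x i t j : ℂ))).rank ≤ ρ} ≤
      C * M ^ (s * (ρ * n) + 4 * k * n ^ 4) := by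
  set R := 2 * n ^ 4 + 1 with hR
  refine ⟨((17 * R ^ 2) ^ (n * n) * 5 ^ (2 * n ^ 4)) ^ k * 5 ^ (s * (ρ * n)), fun l hl hli β M hM => ?_⟩
  have h1 := rank_count hyp_lt (n := n) l hl hli M (8 * R ^ 2 * M ^ 2) hM le_rfl k ρ hk β
  have h2 : Set.ncard {x : Fin k → Fin s → Fin n → ℤ | (∀ i t j, |x i t j| ≤ M) ∧
      (Matrix.of (fun i j => β i j + ∑ t, l t * (x i t j : ℂ))).rank ≤ ρ} =
      #{x ∈ boxd k (Fin s) n M | (Matrix.of (pt l β x)).rank ≤ ρ} := by
    rw [← Set.ncard_coe_finset]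
    congr 1
    ext x
    rw [mem_coe, mem_filter, boxd, Fintype.mem_piFinset]
    simp only [mem_box1]
    rfl
  rw [h2]
  refine h1.trans ?_
  rw [Fintype.card_fin]
  have h3 : 2 * (8 * R ^ 2 * M ^ 2) + 1 ≤ 17 * R ^ 2 * M ^ 2 := by
    have : 1 ≤ R ^ 2 * M ^ 2 := Nat.one_le_iff_ne_zero.mpr (by positivity)
    nlinarith
  have h4 : 4 * M + 1 ≤ 5 * M := by omega
  have h5 : ((2 * (8 * R ^ 2 * M ^ 2) + 1) ^ (n * n) * (4 * M + 1) ^ (2 * n ^ 4)) ^ k * (4 * M + 1) ^ (s * (ρ * n)) ≤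
      ((17 * R ^ 2 * M ^ 2) ^ (n * n) * (5 * M) ^ (2 * n ^ 4)) ^ k * (5 * M) ^ (s * (ρ * n)) :=
    Nat.mul_le_mul (Nat.pow_le_pow_left (Nat.mul_le_mul (Nat.pow_le_pow_left h3 _) (Nat.pow_le_pow_left h4 _)) _)
      (Nat.pow_le_pow_left h4 _)
  refine h5.trans ?_
  have h6 : ((17 * R ^ 2 * M ^ 2) ^ (n * n) * (5 * M) ^ (2 * n ^ 4)) ^ k * (5 * M) ^ (s * (ρ * n)) =
      ((17 * R ^ 2) ^ (n * n) * 5 ^ (2 * n ^ 4)) ^ k * 5 ^ (s * (ρ * n)) *
        M ^ ((2 * (n * n) + 2 * n ^ 4) * k + s * (ρ * n)) := by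
    simp only [mul_pow, ← pow_mul, pow_add]
    ring
  rw [h6]
  refine Nat.mul_le_mul_left _ (Nat.pow_le_pow_right hM ?_)
  have h7 : n * n ≤ n ^ 4 := by
    rcases Nat.eq_zero_or_pos n with h | h
    · subst h; simp
    · calc n * n = n ^ 2 := by ring
        _ ≤ n ^ 4 := Nat.pow_le_pow_right h (by norm_num)
  calc (2 * (n * n) + 2 * n ^ 4) * k + s * (ρ * n) ≤ (2 * n ^ 4 + 2 * n ^ 4) * k + s * (ρ * n) :=
        Nat.add_le_add_right (Nat.mul_le_mul_right _ (by omega)) _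
    _ = s * (ρ * n) + 4 * k * n ^ 4 := by ring

end Pool.Agent.D0H4.Rk
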