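import Mathlib

/-!
# Linear algebra
-/

set_option autoImplicit false

namespace Pool.Agent.D0H4.Rk

open Module Finset

section

variable {κ M X Y Z : Type*} [Field κ] [AddCommGroup M] [Module κ M] [AddCommGroup X] [Module κ X]
  [AddCommGroup Y] [Module κ Y] [AddCommGroup Z] [Module κ Z]

theorem range_le_of_ker [FiniteDimensional κ Y] (g : M →ₗ[κ] Y) (F : M →ₗ[κ] X)
    (h : LinearMap.ker g ≤ LinearMap.ker F) :
    finrank κ (LinearMap.range F) ≤ finrank κ (LinearMap.range g) := by
  have h1 := (LinearMap.quotKerEquivRange g).finrank_eq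
  have : Module.Finite κ (M ⧸ LinearMap.ker g) :=
    Module.Finite.equiv (LinearMap.quotKerEquivRange g).symm
  have h2 := LinearMap.finrank_range_le ((LinearMap.ker g).liftQ F h)
  rw [Submodule.range_liftQ] at h2
  rw [← h1]
  exact h2

/-- if `f` vanishes where `g` and `θ` vanish, its rank is at most the sum of the ranks -/
theorem rank_two [FiniteDimensional κ X] [FiniteDimensional κ Y] [FiniteDimensional κ Z] (g : M →ₗ[κ] Y)
    (θ : LinearMap.ker g →ₗ[κ] Z) (f : M →ₗ[κ] X) (h : ∀ m : LinearMap.ker g, θ m = 0 → f m = 0) :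
    finrank κ (LinearMap.range f) ≤ finrank κ (LinearMap.range g) + finrank κ Z := by
  set N : Submodule κ X := LinearMap.range (f.domRestrict (LinearMap.ker g)) with hN
  have h1 : finrank κ N ≤ finrank κ Z := by
    refine (range_le_of_ker θ (f.domRestrict (LinearMap.ker g)) ?_).trans (Submodule.finrank_le _)
    intro m hm
    exact h m hm
  have h2 : finrank κ (LinearMap.range (N.mkQ ∘ₗ f)) ≤ finrank κ (LinearMap.range g) := by
    refine range_le_of_ker g _ ?_
    intro m hm
    rw [LinearMap.mem_ker, LinearMap.comp_apply, Submodule.mkQ_apply, Submodule.Quotient.mk_eq_zero]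
    exact ⟨⟨m, hm⟩, rfl⟩
  have h3 := LinearMap.finrank_range_add_finrank_ker (N.mkQ.domRestrict (LinearMap.range f))
  rw [LinearMap.range_domRestrict, ← LinearMap.range_comp] at h3
  have h4 : finrank κ (LinearMap.ker (N.mkQ.domRestrict (LinearMap.range f))) ≤ finrank κ N := by
    let ψ : LinearMap.ker (N.mkQ.domRestrict (LinearMap.range f)) →ₗ[κ] N :=
      LinearMap.codRestrict N ((LinearMap.range f).subtype ∘ₗ
        (LinearMap.ker (N.mkQ.domRestrict (LinearMap.range f))).subtype) (by
        intro x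
        have h5 : N.mkQ ((x : LinearMap.range f) : X) = 0 := x.2
        rwa [Submodule.mkQ_apply, Submodule.Quotient.mk_eq_zero] at h5)
    refine LinearMap.finrank_le_finrank_of_injective (f := ψ) ?_
    intro x x' h
    apply Subtype.ext
    apply Subtype.ext
    exact congrArg (fun z : N => (z : X)) h
  omega

end

/-- few members of a separating family of linear maps separate the points of a finite dimensional space -/
theorem greedy {F E M ι : Type*} [Field F] [AddCommGroup E] [Module F E] [AddCommGroup M] [Module F M]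
    [FiniteDimensional F E] [DecidableEq ι] (φ : ι → E →ₗ[F] M) :
    ∀ (N : ℕ) (S : Submodule F E), finrank F S ≤ N → (∀ x ∈ S, (∀ j, φ j x = 0) → x = 0) →
      ∃ K : Finset ι, K.card ≤ N ∧ ∀ x ∈ S, (∀ j ∈ K, φ j x = 0) → x = 0 := by
  intro N
  induction N with
  | zero =>
    intro S hS _
    refine ⟨∅, le_rfl, fun x hx _ => ?_⟩
    have h1 : S = ⊥ := Submodule.finrank_eq_zero.mp (Nat.le_zero.mp hS)
    rw [h1] at hx
    exact (Submodule.mem_bot F).mp hx
  | succ N ih =>
    intro S hS hsep
    by_cases hbot : S = ⊥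
    · refine ⟨∅, Nat.zero_le _, fun x hx _ => ?_⟩
      rw [hbot] at hx
      exact (Submodule.mem_bot F).mp hx
    · obtain ⟨x, hx, hx0⟩ := S.ne_bot_iff.mp hbot
      obtain ⟨j, hj⟩ : ∃ j, φ j x ≠ 0 := by
        by_contra hcon
        push Not at hcon
        exact hx0 (hsep x hx hcon)
      have hlt : S ⊓ LinearMap.ker (φ j) < S := by
        refine lt_of_le_of_ne inf_le_left (fun h => hj ?_)
        have : x ∈ S ⊓ LinearMap.ker (φ j) := by rw [h]; exact hx
        exact (Submodule.mem_inf.mp this).2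
      have h1 := Submodule.finrank_lt_finrank_of_lt hlt
      obtain ⟨K, hK, hK2⟩ := ih (S ⊓ LinearMap.ker (φ j)) (by omega)
        (fun y hy h => hsep y (Submodule.mem_inf.mp hy).1 h)
      refine ⟨insert j K, (card_insert_le _ _).trans (by omega), fun y hy h => ?_⟩
      exact hK2 y (Submodule.mem_inf.mpr ⟨hy, h j (mem_insert_self _ _)⟩)
        (fun i hi => h i (mem_insert_of_mem hi))

/-- the constants -/
def cs (q : ℕ) : ℕ → ℕ
  | 0 => 0
  | m + 1 => 2 * cs q m + q

theorem cs_mono (q : ℕ) : Monotone (cs q) := by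
  refine monotone_nat_of_le_succ (fun m => ?_)
  rw [cs]
  omega

theorem cs_eq (q m : ℕ) : cs q m = (2 ^ m - 1) * q := by
  induction m with
  | zero => simp [cs]
  | succ m ih =>
    rw [cs, ih]
    have h : 1 ≤ 2 ^ m := Nat.one_le_two_pow
    obtain ⟨a, ha⟩ : ∃ a, 2 ^ m = a + 1 := ⟨2 ^ m - 1, by omega⟩
    rw [pow_succ, ha]
    have h1 : a + 1 - 1 = a := by omega
    have h2 : (a + 1) * 2 - 1 = 2 * a + 1 := by omega
    rw [h1, h2]
    ring

end Pool.Agent.D0H4.Rk
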