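import Pool.Agent.TH160.TowP.RankB
import Pool.Agent.D0H4.Rk.LinAlg

/-!
# Vectors of linear combinations of logarithms in a subspace are determined by few columns
-/

set_option autoImplicit false

namespace Pool.Agent.D0H4.Rk

open Module Finset
open Pool.Agent.W254.Ab (QA mem_QA)
open Pool.Agent.W254.PA (Hyp)
open Pool.Agent.TH160.TowP (rank_bound V_mul)

variable {Ω : Type} [Field Ω] [CharZero Ω] {V₀ : Submodule (QA Ω) Ω}

/-- algebraic vectors as vectors -/
noncomputable def emb (Ω : Type) [Field Ω] [CharZero Ω] (n : ℕ) : (Fin n → QA Ω) →ₗ[QA Ω] (Fin n → Ω) where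
  toFun x := fun i => (x i : Ω)
  map_add' x y := by funext i; rfl
  map_smul' c x := by funext i; rfl

theorem emb_apply {n : ℕ} (x : Fin n → QA Ω) (i : Fin n) : emb Ω n x i = (x i : Ω) := rfl

theorem emb_inj {n : ℕ} {x : Fin n → QA Ω} (h : emb Ω n x = 0) : x = 0 := by
  funext i
  have := congrFun h i
  rw [emb_apply] at this
  exact Subtype.ext this

/-- the value `∑ λ_k x_k` -/
noncomputable def vl {σ : Type} [Fintype σ] (l : σ → Ω) (n : ℕ) :
    (σ → Fin n → QA Ω) →ₗ[QA Ω] (Fin n → Ω) where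
  toFun x := fun i => ∑ k, l k * (x k i : Ω)
  map_add' x y := by
    funext i
    simp only [Pi.add_apply, ← sum_add_distrib, ← mul_add]
    rfl
  map_smul' c x := by
    funext i
    simp only [Pi.smul_apply, RingHom.id_apply, Finset.smul_sum]
    refine sum_congr rfl (fun k _ => ?_)
    rw [Algebra.smul_def, Algebra.smul_def]
    change l k * ((c : Ω) * (x k i : Ω)) = (c : Ω) * (l k * (x k i : Ω))
    ring

theorem vl_apply {σ : Type} [Fintype σ] (l : σ → Ω) {n : ℕ} (x : σ → Fin n → QA Ω) (i : Fin n) :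
    vl l n x i = ∑ k, l k * (x k i : Ω) := rfl

theorem vl_inj {σ : Type} [Fintype σ] (l : σ → Ω) (hli : LinearIndependent (QA Ω) l) {n : ℕ}
    {x : σ → Fin n → QA Ω} (h : vl l n x = 0) : x = 0 := by
  funext k i
  have h1 := congrFun h i
  rw [vl_apply] at h1
  have h2 : ∑ k, x k i • l k = 0 := by
    rw [Pi.zero_apply] at h1
    rw [← h1]
    refine sum_congr rfl (fun k _ => ?_)
    rw [Algebra.smul_def, mul_comm]
    rfl
  exact Fintype.linearIndependent_iff.mp hli (fun k => x k i) h2 k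

theorem vl_eq {σ : Type} [Fintype σ] (l : σ → Ω) {n : ℕ} (x : σ → Fin n → QA Ω) :
    vl l n x = ∑ k, l k • emb Ω n (x k) := by
  funext i
  rw [vl_apply, Finset.sum_apply]
  rfl

/-- **Few columns.** Let `λ_1, …, λ_s` be linearly independent elements of a space with the hyperplane property and `V` a
subspace of `Ω ^ n`. There is a set `K` of at most `n ^ 3` indices such that, for vectors `x_k` with algebraic coordinates,
if `∑ λ_k x_k` and the `x_k` with `k` in `K` are in `V`, all `x_k` are in `V`. -/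
theorem columns (hV : Hyp V₀) {n : ℕ} {σ : Type} [Fintype σ] [DecidableEq σ] (l : σ → Ω)
    (hl : ∀ k, l k ∈ V₀) (hli : LinearIndependent (QA Ω) l) (V : Submodule Ω (Fin n → Ω)) :
    ∃ K : Finset σ, K.card ≤ n ^ 3 ∧ ∀ x : σ → Fin n → QA Ω, vl l n x ∈ V →
      (∀ k ∈ K, emb Ω n (x k) ∈ V) → ∀ k, emb Ω n (x k) ∈ V := by
  classical
  set W : Submodule (QA Ω) (Fin n → QA Ω) := (V.restrictScalars (QA Ω)).comap (emb Ω n) with hW
  have hWm : ∀ x, x ∈ W ↔ emb Ω n x ∈ V := fun x => Iff.rfl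
  obtain ⟨g, hg⟩ := LinearMap.exists_leftInverse_of_injective W.subtype W.ker_subtype
  set p : (Fin n → QA Ω) →ₗ[QA Ω] (Fin n → QA Ω) := W.subtype ∘ₗ g with hp
  have hpW : ∀ x, p x ∈ W := fun x => (g x).2
  have hpx : ∀ x ∈ W, p x = x := by
    intro x hx
    have := LinearMap.congr_fun hg ⟨x, hx⟩
    have h2 : g x = ⟨x, hx⟩ := this
    rw [hp, LinearMap.comp_apply, h2]
    rfl
  set P : (Fin n → Ω) →ₗ[Ω] (Fin n → Ω) :=
    Matrix.toLin' ((LinearMap.toMatrix' p).map (algebraMap (QA Ω) Ω)) with hP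
  have hPe : ∀ x, P (emb Ω n x) = emb Ω n (p x) := by
    intro x
    funext i
    rw [hP, Matrix.toLin'_apply, Matrix.mulVec, dotProduct, emb_apply]
    have h1 : p x = (LinearMap.toMatrix' p).mulVec x := by
      rw [← Matrix.toLin'_apply, Matrix.toLin'_toMatrix']
    rw [h1, Matrix.mulVec, dotProduct]
    push_cast
    rfl
  set 𝓕 : Submodule Ω (Fin n → Ω) := V ⊓ LinearMap.ker P with h𝓕
  have h0 : ∀ f ∈ 𝓕, (∀ k, IsAlgebraic ℚ (f k)) → f = 0 := by
    intro f hf ha
    obtain ⟨x, hx⟩ : ∃ x : Fin n → QA Ω, emb Ω n x = f := ⟨fun k => ⟨f k, mem_QA.mpr (ha k)⟩, rfl⟩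
    rw [← hx] at hf ⊢
    have h1 : x ∈ W := (hWm x).mpr (Submodule.mem_inf.mp hf).1
    have h2 : P (emb Ω n x) = 0 := (Submodule.mem_inf.mp hf).2
    rw [hPe, hpx x h1] at h2
    exact h2
  -- the space of the solutions
  set E : Submodule (QA Ω) (σ → Fin n → QA Ω) :=
    (V.restrictScalars (QA Ω)).comap (vl l n) ⊓ LinearMap.ker (LinearMap.pi (fun k => p ∘ₗ LinearMap.proj k)) with hE
  have hEm : ∀ x, x ∈ E ↔ vl l n x ∈ V ∧ ∀ k, p (x k) = 0 := by
    intro x
    rw [hE, Submodule.mem_inf, LinearMap.mem_ker]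
    constructor
    · rintro ⟨h1, h2⟩
      exact ⟨h1, fun k => congrFun h2 k⟩
    · rintro ⟨h1, h2⟩
      exact ⟨h1, funext h2⟩
  have hEr : finrank (QA Ω) E ≤ n ^ 3 := by
    let b := Module.finBasis (QA Ω) E
    have hli2 : LinearIndependent (QA Ω) (fun s => vl l n (b s : σ → Fin n → QA Ω)) := by
      have h1 := b.linearIndependent.map' (vl l n ∘ₗ E.subtype) (by
        rw [LinearMap.ker_eq_bot']
        intro x hx
        exact Subtype.ext (vl_inj l hli hx))
      exact h1
    have h2 := rank_bound hV (I := Fin n) (S := Fin (finrank (QA Ω) E)) 𝓕 h0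
      (fun s => vl l n (b s : σ → Fin n → QA Ω)) (fun s i => by
        rw [vl_apply]
        refine V₀.sum_mem (fun k _ => ?_)
        rw [mul_comm]
        exact V_mul (mem_QA.mp ((b s : σ → Fin n → QA Ω) k i).2) (hl k)) (fun s => by
        have h3 := (hEm _).mp (b s).2
        refine Submodule.mem_inf.mpr ⟨h3.1, ?_⟩
        rw [LinearMap.mem_ker, vl_eq, map_sum]
        refine sum_eq_zero (fun k _ => ?_)
        rw [map_smul, hPe, h3.2 k, map_zero, smul_zero]) hli2
    rwa [Fintype.card_fin, Fintype.card_fin] at h2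
  obtain ⟨K, hK, hK2⟩ := greedy (fun k : σ => (LinearMap.proj k : (σ → Fin n → QA Ω) →ₗ[QA Ω] _)) (n ^ 3) E hEr
    (fun x _ h => funext h)
  refine ⟨K, hK, fun x hx hxK => ?_⟩
  have h1 : (fun k => x k - p (x k)) ∈ E := by
    rw [hEm]
    constructor
    · have h2 : vl l n (fun k => x k - p (x k)) = vl l n x - ∑ k, l k • emb Ω n (p (x k)) := by
        rw [vl_eq, vl_eq, ← sum_sub_distrib]
        refine sum_congr rfl (fun k _ => ?_)
        rw [map_sub, smul_sub]
      rw [h2]
      exact V.sub_mem hx (V.sum_mem fun k _ => V.smul_mem _ (hpW (x k)))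
    · intro k
      rw [map_sub, hpx _ (hpW (x k)), sub_self]
  have h2 := hK2 _ h1 (fun k hk => by
    change x k - p (x k) = 0
    rw [hpx _ ((hWm _).mpr (hxK k hk)), sub_self])
  intro k
  have h3 : x k = p (x k) := sub_eq_zero.mp (congrFun h2 k)
  rw [h3]
  exact hpW (x k)

end Pool.Agent.D0H4.Rk
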