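import Pool.Agent.D0H4.Rk.LinAlg

/-!
# Derivations and linear combinations: the tangent space argument
-/

set_option autoImplicit false

namespace Pool.Agent.D0H4.Rk

open Module Finset

section core

variable {κ C : Type*} [Field κ] [Field C] [Algebra κ C]

/-- `∑ λ_k x_k` and few of the `x_k` in a subspace imply that all `x_k` are in the subspace -/
def Col (κ C : Type*) [Field κ] [Field C] [Algebra κ C] (s n c : ℕ) (l : Fin s → C) : Prop :=
  ∀ V : Submodule C (Fin n → C), ∃ K : Finset (Fin s), K.card ≤ c ∧ ∀ x : Fin s → Fin n → κ,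
    (fun i => ∑ k, l k * algebraMap κ C (x k i)) ∈ V →
    (∀ k ∈ K, (fun i => algebraMap κ C (x k i)) ∈ V) → ∀ k, (fun i => algebraMap κ C (x k i)) ∈ V

/-- vectors -/
def em (κ C : Type*) [Field κ] [Field C] [Algebra κ C] (n : ℕ) : (Fin n → κ) →ₗ[κ] (Fin n → C) where
  toFun x := fun i => algebraMap κ C (x i)
  map_add' x y := by funext i; simp
  map_smul' a x := by funext i; simp [Algebra.smul_def]

theorem em_apply {n : ℕ} (x : Fin n → κ) (i : Fin n) : em κ C n x i = algebraMap κ C (x i) := rfl

/-- the derivations of `C` which preserve `κ` and kill `A` -/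
def DD (κ : Type*) {C : Type*} [Field κ] [Field C] [Algebra κ C] (A : Set C) :
    Submodule κ (Derivation ℤ C C) where
  carrier := {D | (∀ c : κ, ∃ c' : κ, D (algebraMap κ C c) = algebraMap κ C c') ∧ ∀ a ∈ A, D a = 0}
  add_mem' := by
    rintro D D' ⟨h1, h2⟩ ⟨h1', h2'⟩
    refine ⟨fun c => ?_, fun a ha => ?_⟩
    · obtain ⟨x, hx⟩ := h1 c
      obtain ⟨y, hy⟩ := h1' c
      exact ⟨x + y, by rw [Derivation.add_apply, hx, hy, map_add]⟩
    · rw [Derivation.add_apply, h2 a ha, h2' a ha, add_zero]
  zero_mem' := ⟨fun c => ⟨0, by rw [Derivation.zero_apply, map_zero]⟩, fun a _ => Derivation.zero_apply a⟩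
  smul_mem' := by
    rintro a D ⟨h1, h2⟩
    refine ⟨fun c => ?_, fun x hx => ?_⟩
    · obtain ⟨x, hx⟩ := h1 c
      exact ⟨a * x, by rw [Derivation.smul_apply, hx, Algebra.smul_def, map_mul]⟩
    · rw [Derivation.smul_apply, h2 x hx, smul_zero]

variable {A : Set C}

/-- the action on `κ` -/
noncomputable def dk (D : DD κ A) (c : κ) : κ := (D.2.1 c).choose

theorem dk_spec (D : DD κ A) (c : κ) : D.1 (algebraMap κ C c) = algebraMap κ C (dk D c) :=
  (D.2.1 c).choose_spec

theorem dk_add (D : DD κ A) (a b : κ) : dk D (a + b) = dk D a + dk D b := by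
  apply (algebraMap κ C).injective
  rw [← dk_spec, map_add, map_add, map_add, dk_spec, dk_spec]

theorem dk_mul (D : DD κ A) (a b : κ) : dk D (a * b) = dk D a * b + a * dk D b := by
  apply (algebraMap κ C).injective
  rw [← dk_spec, map_mul, (D.1).leibniz, dk_spec, dk_spec, map_add, map_mul, map_mul, smul_eq_mul, smul_eq_mul]
  ring

theorem dk_zero (D : DD κ A) : dk D 0 = 0 := by
  apply (algebraMap κ C).injective
  rw [← dk_spec, map_zero, map_zero]

theorem dk_one (D : DD κ A) : dk D 1 = 0 := by
  apply (algebraMap κ C).injective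
  rw [← dk_spec, map_one, map_zero, Derivation.map_one_eq_zero]

theorem dk_left_add (D D' : DD κ A) (c : κ) : dk (D + D') c = dk D c + dk D' c := by
  apply (algebraMap κ C).injective
  rw [← dk_spec, map_add, ← dk_spec, ← dk_spec]
  rfl

theorem dk_left_smul (a : κ) (D : DD κ A) (c : κ) : dk (a • D) c = a * dk D c := by
  apply (algebraMap κ C).injective
  rw [← dk_spec, map_mul, ← dk_spec, ← Algebra.smul_def]
  rfl

/-- the action on vectors -/
noncomputable def dv {n : ℕ} (D : DD κ A) (w : Fin n → κ) : Fin n → κ := fun i => dk D (w i)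

theorem dv_add {n : ℕ} (D : DD κ A) (u w : Fin n → κ) : dv D (u + w) = dv D u + dv D w := by
  funext i; exact dk_add D _ _

theorem dv_smul {n : ℕ} (D : DD κ A) (a : κ) (w : Fin n → κ) : dv D (a • w) = dk D a • w + a • dv D w := by
  funext i; exact dk_mul D _ _

theorem dv_zero {n : ℕ} (D : DD κ A) : dv D (0 : Fin n → κ) = 0 := by
  funext i; exact dk_zero (A := A) D

theorem dv_left_add {n : ℕ} (D D' : DD κ A) (w : Fin n → κ) : dv (D + D') w = dv D w + dv D' w := by
  funext i; exact dk_left_add D D' _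

theorem dv_left_smul {n : ℕ} (a : κ) (D : DD κ A) (w : Fin n → κ) : dv (a • D) w = a • dv D w := by
  funext i; exact dk_left_smul a D _

/-- the bracket -/
noncomputable def br (D D' : DD κ A) : DD κ A :=
  ⟨⁅D.1, D'.1⁆, fun c => ⟨dk D (dk D' c) - dk D' (dk D c), by
      rw [Derivation.commutator_apply, dk_spec, dk_spec, dk_spec, dk_spec, map_sub]⟩,
    fun a ha => by rw [Derivation.commutator_apply, D'.2.2 a ha, D.2.2 a ha, map_zero, map_zero, sub_zero]⟩

theorem dk_br (D D' : DD κ A) (c : κ) : dk (br D D') c = dk D (dk D' c) - dk D' (dk D c) := by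
  apply (algebraMap κ C).injective
  rw [← dk_spec, map_sub, ← dk_spec, ← dk_spec, ← dk_spec, ← dk_spec]
  change ⁅D.1, D'.1⁆ (algebraMap κ C c) = _
  rw [Derivation.commutator_apply]

theorem dv_br {n : ℕ} (D D' : DD κ A) (w : Fin n → κ) : dv (br D D') w = dv D (dv D' w) - dv D' (dv D w) := by
  funext i; exact dk_br D D' _

variable {s n : ℕ} (b : Fin s → Fin n → κ)

/-- the values at the point modulo a space -/
noncomputable def qW (A : Set C) (W : Submodule κ (Fin n → κ)) : DD κ A →ₗ[κ] (Fin s → (Fin n → κ) ⧸ W) where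
  toFun D := fun k => W.mkQ (dv D (b k))
  map_add' D D' := by funext k; rw [dv_left_add, map_add]; rfl
  map_smul' a D := by funext k; rw [dv_left_smul, map_smul]; rfl

theorem mem_ker_qW {W : Submodule κ (Fin n → κ)} {D : DD κ A} :
    D ∈ LinearMap.ker (qW b A W) ↔ ∀ k, dv D (b k) ∈ W := by
  rw [LinearMap.mem_ker]
  constructor
  · intro h k
    have := congrFun h k
    exact (Submodule.Quotient.mk_eq_zero W).mp this
  · intro h
    funext k
    exact (Submodule.Quotient.mk_eq_zero W).mpr (h k)

/-- the codimension -/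
noncomputable def cd (A : Set C) (W : Submodule κ (Fin n → κ)) : ℕ := finrank κ (LinearMap.range (qW b A W))

/-- a space of smallest dimension which contains almost the tangent space -/
theorem exists_min (A : Set C) (q : ℕ) : ∃ W : Submodule κ (Fin n → κ), cd b A W ≤ cs q n ∧
    ∀ W' : Submodule κ (Fin n → κ), W' ≤ W → cd b A W' ≤ 2 * cd b A W + q → W' = W := by
  classical
  set Pr : ℕ → Prop := fun m => ∃ W : Submodule κ (Fin n → κ), finrank κ W = m ∧ cd b A W ≤ cs q (n - m) with hPr
  have hex : ∃ m, Pr m := by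
    refine ⟨finrank κ (⊤ : Submodule κ (Fin n → κ)), ⊤, rfl, ?_⟩
    have : cd b A (⊤ : Submodule κ (Fin n → κ)) = 0 := by
      rw [cd, LinearMap.range_eq_bot.mpr, finrank_bot]
      ext1 D
      have : D ∈ LinearMap.ker (qW b A ⊤) := (mem_ker_qW b).mpr (fun k => Submodule.mem_top)
      exact this
    rw [this]
    exact Nat.zero_le _
  obtain ⟨W, hWm, hWc⟩ := Nat.find_spec hex
  have hle : finrank κ W ≤ n := by
    have := Submodule.finrank_le W
    rwa [Module.finrank_fintype_fun_eq_card, Fintype.card_fin] at this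
  refine ⟨W, hWc.trans (cs_mono q (Nat.sub_le _ _)), fun W' hW' hcd => ?_⟩
  by_contra hne
  have hlt := Submodule.finrank_lt_finrank_of_lt (lt_of_le_of_ne hW' hne)
  rw [← hWm] at hWc
  have h1 : Pr (finrank κ W') := by
    refine ⟨W', rfl, ?_⟩
    have h2 : cs q (n - finrank κ W + 1) ≤ cs q (n - finrank κ W') := cs_mono q (by omega)
    have h3 : cs q (n - finrank κ W + 1) = 2 * cs q (n - finrank κ W) + q := rfl
    omega
  have := Nat.find_min' hex h1
  omega

/-- the minimal space is preserved -/
theorem stable {q : ℕ} (hq : n ^ 2 ≤ q) {W : Submodule κ (Fin n → κ)}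
    (hW : ∀ W' : Submodule κ (Fin n → κ), W' ≤ W → cd b A W' ≤ 2 * cd b A W + q → W' = W)
    (D : DD κ A) (hD : ∀ k, dv D (b k) ∈ W) (w : Fin n → κ) (hw : w ∈ W) : dv D w ∈ W := by
  classical
  set W' : Submodule κ (Fin n → κ) :=
    { carrier := {w | w ∈ W ∧ dv D w ∈ W}
      add_mem' := by
        rintro x y ⟨h1, h2⟩ ⟨h3, h4⟩
        exact ⟨W.add_mem h1 h3, by rw [dv_add]; exact W.add_mem h2 h4⟩
      zero_mem' := ⟨W.zero_mem, by rw [dv_zero]; exact W.zero_mem⟩
      smul_mem' := by
        rintro a x ⟨h1, h2⟩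
        exact ⟨W.smul_mem _ h1, by rw [dv_smul]; exact W.add_mem (W.smul_mem _ h1) (W.smul_mem _ h2)⟩ } with hW'
  have hle : W' ≤ W := fun x hx => hx.1
  set u := finrank κ W with hu
  let B := Module.finBasis κ W
  have hEm : ∀ E : LinearMap.ker (qW b A W), ∀ k, dv E.1 (b k) ∈ W := fun E => (mem_ker_qW b).mp E.2
  obtain ⟨R, hR⟩ : ∃ R : Submodule κ (Fin s → (Fin n → κ) ⧸ W), R = LinearMap.range (qW b A W) := ⟨_, rfl⟩
  let θ : LinearMap.ker (qW b A W) →ₗ[κ] (R × (Fin u → (Fin n → κ) ⧸ W)) :=
    { toFun := fun E => (⟨qW b A W (br D E.1), by rw [hR]; exact LinearMap.mem_range_self _ _⟩,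
        fun a => W.mkQ (dv E.1 (B a : Fin n → κ)))
      map_add' := by
        intro E E'
        refine Prod.ext (Subtype.ext ?_) ?_
        · funext k
          change W.mkQ (dv (br D (E.1 + E'.1)) (b k)) = W.mkQ (dv (br D E.1) (b k)) + W.mkQ (dv (br D E'.1) (b k))
          rw [← map_add]
          congr 1
          simp only [dv_br, dv_left_add, dv_add]
          abel
        · funext a
          change W.mkQ (dv (E.1 + E'.1) (B a : Fin n → κ)) = _
          rw [dv_left_add, map_add]
          rfl
      map_smul' := by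
        intro c E
        refine Prod.ext (Subtype.ext ?_) ?_
        · funext k
          change W.mkQ (dv (br D (c • E.1)) (b k)) = c • W.mkQ (dv (br D E.1) (b k))
          have h1 : dv (br D (c • E.1)) (b k) = c • dv (br D E.1) (b k) + dk D c • dv E.1 (b k) := by
            simp only [dv_br, dv_left_smul, dv_smul, smul_sub]
            abel
          rw [h1, map_add, map_smul, map_smul]
          have h2 : W.mkQ (dv E.1 (b k)) = 0 := (Submodule.Quotient.mk_eq_zero W).mpr (hEm E k)
          rw [h2, smul_zero, add_zero]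
        · funext a
          change W.mkQ (dv (c • E.1) (B a : Fin n → κ)) = _
          rw [dv_left_smul, map_smul]
          rfl }
  have h1 := rank_two (qW b A W) θ (qW b A W') (by
    intro E hE
    have hE1 : ∀ k, dv (br D E.1) (b k) ∈ W := by
      intro k
      have h1 := congrArg (fun z => (z.1 : Fin s → (Fin n → κ) ⧸ W)) hE
      exact (Submodule.Quotient.mk_eq_zero W).mp (congrFun h1 k)
    have hE2 : ∀ a, dv E.1 (B a : Fin n → κ) ∈ W := by
      intro a
      have h1 := congrArg (fun z => z.2) hE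
      exact (Submodule.Quotient.mk_eq_zero W).mp (congrFun h1 a)
    have hE3 : ∀ w ∈ W, dv E.1 w ∈ W := by
      intro w hw
      have h2 := congrArg (fun z : W => (z : Fin n → κ)) (B.sum_repr ⟨w, hw⟩)
      simp only [Submodule.coe_sum, Submodule.coe_smul] at h2
      rw [← h2]
      have h3 : ∀ t : Finset (Fin u), dv E.1 (∑ a ∈ t, B.repr ⟨w, hw⟩ a • (B a : Fin n → κ)) ∈ W := by
        intro t
        induction t using Finset.induction_on with
        | empty => rw [sum_empty, dv_zero]; exact W.zero_mem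
        | insert a t ha ih =>
          rw [sum_insert ha, dv_add, dv_smul]
          exact W.add_mem (W.add_mem (W.smul_mem _ (B a).2) (W.smul_mem _ (hE2 a))) ih
      exact h3 univ
    refine (mem_ker_qW b).mpr (fun k => ⟨hEm E k, ?_⟩)
    have h4 := hE1 k
    rw [dv_br] at h4
    have h5 := hE3 _ (hD k)
    have h6 := W.add_mem h4 h5
    rwa [sub_add_cancel] at h6)
  have h2 : finrank κ (R × (Fin u → (Fin n → κ) ⧸ W)) ≤ cd b A W + q := by
    rw [Module.finrank_prod]
    refine Nat.add_le_add (by rw [hR]; exact le_rfl) ?_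
    rw [Module.finrank_pi_fintype, sum_const, card_univ, Fintype.card_fin, smul_eq_mul]
    have h3 : u ≤ n := by
      have := Submodule.finrank_le W
      rwa [Module.finrank_fintype_fun_eq_card, Fintype.card_fin] at this
    have h4 : finrank κ ((Fin n → κ) ⧸ W) ≤ n := by
      have := Submodule.finrank_quotient_le W
      rwa [Module.finrank_fintype_fun_eq_card, Fintype.card_fin] at this
    calc u * finrank κ ((Fin n → κ) ⧸ W) ≤ n * n := Nat.mul_le_mul h3 h4
      _ = n ^ 2 := by ring
      _ ≤ q := hq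
  have h3 : W' = W := by
    refine hW W' hle ?_
    change finrank κ (LinearMap.range (qW b A W')) ≤ _
    have h4 : finrank κ (LinearMap.range (qW b A W)) = cd b A W := rfl
    omega
  have h4 : w ∈ W' := by rw [h3]; exact hw
  exact h4.2

end core

end Pool.Agent.D0H4.Rk
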