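import Pool.Agent.D0H4.Rk.Core

/-!
# Derivations and linear combinations: polynomials vanish on a translate of the tangent space
-/

set_option autoImplicit false

namespace Pool.Agent.D0H4.Rk

open Module Finset MvPolynomial

theorem pderiv_deg {R : Type*} [CommRing R] {n : ℕ} (f : MvPolynomial (Fin n) R) (i : Fin n) :
    (pderiv i f).totalDegree ≤ f.totalDegree - 1 := by
  classical
  refine Finset.sup_le (fun m hm => ?_)
  rw [MvPolynomial.mem_support_iff, coeff_pderiv] at hm
  have h1 : m + Finsupp.single i 1 ∈ f.support := by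
    rw [MvPolynomial.mem_support_iff]
    exact left_ne_zero_of_mul hm
  have h2 := le_totalDegree h1
  rw [Finsupp.sum_add_index' (fun _ => rfl) (fun _ _ _ => rfl),
    Finsupp.sum_single_index rfl] at h2
  omega

/-- the chain rule -/
theorem chain {S B R : Type*} [CommRing S] [CommRing B] [CommRing R] [Algebra B R] [Algebra S R] {n : ℕ}
    (D : Derivation S R R) (hD : ∀ a : B, D (algebraMap B R a) = 0) (g : Fin n → R)
    (f : MvPolynomial (Fin n) B) : D (aeval g f) = ∑ i, aeval g (pderiv i f) * D (g i) := by
  classical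
  induction f using MvPolynomial.induction_on with
  | C a =>
    rw [aeval_C, hD]
    symm
    refine sum_eq_zero (fun i _ => ?_)
    rw [pderiv_C, map_zero, zero_mul]
  | add p q hp hq =>
    rw [map_add, map_add, hp, hq, ← sum_add_distrib]
    refine sum_congr rfl (fun i _ => ?_)
    rw [map_add, map_add, add_mul]
  | mul_X p j hp =>
    rw [map_mul, aeval_X, D.leibniz, hp]
    have h1 : ∀ i, aeval g (pderiv i (p * X j)) * D (g i) =
        g j * (aeval g (pderiv i p) * D (g i)) + (if i = j then aeval g p * D (g j) else 0) := by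
      intro i
      rw [pderiv_mul, pderiv_X, map_add, map_mul, map_mul, aeval_X, Pi.single_apply]
      by_cases h : i = j
      · subst h
        simp only [if_true, map_one]
        ring
      · rw [if_neg (fun h' => h h'.symm), if_neg h, map_zero]
        ring
    simp only [h1, sum_add_distrib]
    rw [Finset.sum_ite_eq' univ j, if_pos (mem_univ j), ← mul_sum, smul_eq_mul, smul_eq_mul]
    ring

/-- pivots -/
theorem pivot {κ : Type*} [Field κ] {n : ℕ} (W : Submodule κ (Fin n → κ)) :
    ∃ (J : Finset (Fin n)) (w : J → Fin n → κ), (∀ j, w j ∈ W) ∧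
      (∀ j j' : J, w j j' = if j = j' then 1 else 0) ∧ J.card = finrank κ W ∧
      ∀ x ∈ W, (∀ j : J, x j = 0) → x = 0 := by
  classical
  obtain ⟨J, hJ, hJ2⟩ := greedy (fun i : Fin n => (LinearMap.proj i : (Fin n → κ) →ₗ[κ] κ)) (finrank κ W) W le_rfl
    (fun x _ h => funext h)
  let ρ : W →ₗ[κ] (J → κ) := LinearMap.pi (fun j : J => (LinearMap.proj (j : Fin n) : (Fin n → κ) →ₗ[κ] κ) ∘ₗ W.subtype)
  have hρ : Function.Injective ρ := by
    rw [← LinearMap.ker_eq_bot, LinearMap.ker_eq_bot']
    intro x hx
    apply Subtype.ext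
    exact hJ2 x x.2 (fun j hj => congrFun hx ⟨j, hj⟩)
  have h1 := LinearMap.finrank_le_finrank_of_injective hρ
  rw [Module.finrank_fintype_fun_eq_card, Fintype.card_coe] at h1
  have h2 : finrank κ W = finrank κ (J → κ) := by
    rw [Module.finrank_fintype_fun_eq_card, Fintype.card_coe]
    omega
  have h3 : Function.Surjective ρ := (LinearMap.injective_iff_surjective_of_finrank_eq_finrank h2).mp hρ
  choose w hw using fun j : J => h3 (Pi.single j 1)
  refine ⟨J, fun j => (w j : Fin n → κ), fun j => (w j).2, fun j j' => ?_, by omega, ?_⟩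
  · have h4 := congrFun (hw j) j'
    rw [Pi.single_apply] at h4
    change (w j : Fin n → κ) j' = _
    rw [← show ρ (w j) j' = (w j : Fin n → κ) j' from rfl, h4]
    by_cases h : j = j'
    · rw [if_pos h, if_pos h.symm]
    · rw [if_neg h, if_neg (fun h' => h h'.symm)]
  · intro x hx h
    exact hJ2 x hx (fun j hj => h ⟨j, hj⟩)

section core

variable {κ C : Type*} [Field κ] [Field C] [Algebra κ C] {A : Set C} {s n : ℕ} (b : Fin s → Fin n → κ)

/-- a gradient which kills the tangent space kills the minimal space -/
theorem orth {q c : ℕ} (hq : c * n ≤ q) {W : Submodule κ (Fin n → κ)}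
    (hW : ∀ W' : Submodule κ (Fin n → κ), W' ≤ W → cd b A W' ≤ 2 * cd b A W + q → W' = W)
    (l : Fin s → C) (hcol : Col κ C s n c l) (G : Fin n → C)
    (hG : ∀ D : DD κ A, (∀ k, dv D (b k) ∈ W) →
      ∑ i, G i * ∑ k, l k * algebraMap κ C (dk D (b k i)) = 0) (w : Fin n → κ) (hw : w ∈ W) :
    ∑ i, G i * algebraMap κ C (w i) = 0 := by
  classical
  set V : Submodule C (Fin n → C) :=
    { carrier := {v | ∑ i, G i * v i = 0}
      add_mem' := by
        intro x y hx hy
        have : ∑ i, G i * (x + y) i = ∑ i, G i * x i + ∑ i, G i * y i := by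
          simp only [Pi.add_apply, mul_add, sum_add_distrib]
        rw [Set.mem_ofPred_eq] at *
        rw [this, hx, hy, add_zero]
      zero_mem' := by simp
      smul_mem' := by
        intro a x hx
        rw [Set.mem_ofPred_eq] at *
        have : ∑ i, G i * (a • x) i = a * ∑ i, G i * x i := by
          simp only [Pi.smul_apply, smul_eq_mul, mul_sum]
          exact sum_congr rfl (fun i _ => by ring)
        rw [this, hx, mul_zero] } with hV
  set W' : Submodule κ (Fin n → κ) := W ⊓ (V.restrictScalars κ).comap (em κ C n) with hW'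
  have hW'm : ∀ x, x ∈ W' ↔ x ∈ W ∧ (fun i => algebraMap κ C (x i)) ∈ V := fun x => Submodule.mem_inf
  obtain ⟨K, hK, hK2⟩ := hcol V
  have hEm : ∀ E : LinearMap.ker (qW b A W), ∀ k, dv E.1 (b k) ∈ W := fun E => (mem_ker_qW b).mp E.2
  let θ : LinearMap.ker (qW b A W) →ₗ[κ] (K → (Fin n → κ) ⧸ W') :=
    { toFun := fun E => fun k => W'.mkQ (dv E.1 (b k))
      map_add' := by
        intro E E'
        funext k
        change W'.mkQ (dv (E.1 + E'.1) (b k)) = _
        rw [dv_left_add, map_add]
        rfl
      map_smul' := by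
        intro a E
        funext k
        change W'.mkQ (dv (a • E.1) (b k)) = _
        rw [dv_left_smul, map_smul]
        rfl }
  have h1 := rank_two (qW b A W) θ (qW b A W') (by
    intro E hE
    have hE1 : ∀ k ∈ K, dv E.1 (b k) ∈ W' := fun k hk =>
      (Submodule.Quotient.mk_eq_zero W').mp (congrFun hE ⟨k, hk⟩)
    have h2 := hK2 (fun k => dv E.1 (b k)) (hG E.1 (hEm E)) (fun k hk => ((hW'm _).mp (hE1 k hk)).2)
    exact (mem_ker_qW b).mpr (fun k => (hW'm _).mpr ⟨hEm E k, h2 k⟩))
  have h2 : finrank κ (K → (Fin n → κ) ⧸ W') ≤ q := by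
    rw [Module.finrank_pi_fintype, sum_const, card_univ, Fintype.card_coe, smul_eq_mul]
    have h4 : finrank κ ((Fin n → κ) ⧸ W') ≤ n := by
      have := Submodule.finrank_quotient_le W'
      rwa [Module.finrank_fintype_fun_eq_card, Fintype.card_fin] at this
    exact (Nat.mul_le_mul hK h4).trans hq
  have h3 : W' = W := by
    refine hW W' inf_le_left ?_
    change finrank κ (LinearMap.range (qW b A W')) ≤ _
    have h4 : finrank κ (LinearMap.range (qW b A W)) = cd b A W := rfl
    omega
  have h4 : w ∈ W' := by rw [h3]; exact hw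
  exact ((hW'm w).mp h4).2

/-- the elements killed by the derivations tangent to `W` -/
def AE (A : Set C) (W : Submodule κ (Fin n → κ)) : Subring C where
  carrier := {a | ∀ D : DD κ A, (∀ k, dv D (b k) ∈ W) → D.1 a = 0}
  mul_mem' := by
    intro x y hx hy D hD
    rw [(D.1).leibniz, hx D hD, hy D hD, smul_zero, smul_zero, add_zero]
  one_mem' := fun D _ => Derivation.map_one_eq_zero D.1
  add_mem' := by
    intro x y hx hy D hD
    rw [map_add, hx D hD, hy D hD, add_zero]
  zero_mem' := fun D _ => map_zero D.1
  neg_mem' := by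
    intro x hx D hD
    rw [map_neg, hx D hD, neg_zero]

/-- evaluation of a polynomial on a line -/
theorem eval_line {B : Type*} [CommRing B] [Algebra B C] (g : Fin n → Polynomial C) (t : C)
    (f : MvPolynomial (Fin n) B) :
    Polynomial.eval t (aeval g f) = aeval (fun i => Polynomial.eval t (g i)) f := by
  induction f using MvPolynomial.induction_on with
  | C a =>
    rw [aeval_C, aeval_C]
    rw [Polynomial.algebraMap_apply, Polynomial.eval_C]
  | add p q hp hq => rw [map_add, map_add, Polynomial.eval_add, hp, hq]
  | mul_X p j hp => rw [map_mul, map_mul, Polynomial.eval_mul, hp, aeval_X, aeval_X]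

/-- a polynomial all of whose directional derivatives vanish vanishes on a translate of the space -/
theorem vanish [CharZero C] (B : Subring C) (y : Fin n → C) {J : Type*} [Fintype J] (w : J → Fin n → C)
    (hwB : ∀ j i, w j i ∈ B)
    (hstep : ∀ f : MvPolynomial (Fin n) B, aeval y f = 0 → ∀ j, ∑ i, aeval y (pderiv i f) * w j i = 0) :
    ∀ (m : ℕ) (f : MvPolynomial (Fin n) B), f.totalDegree ≤ m → aeval y f = 0 → ∀ z : J → C,
      aeval (fun i => y i + ∑ j, z j * w j i) f = 0 := by
  classical
  intro m
  induction m with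
  | zero =>
    intro f hf h0 z
    rw [totalDegree_eq_zero_iff_eq_C.mp (Nat.le_zero.mp hf), aeval_C] at h0 ⊢
    exact h0
  | succ m ih =>
    intro f hf h0 z
    set dd : J → MvPolynomial (Fin n) B := fun j => ∑ i, MvPolynomial.C (⟨w j i, hwB j i⟩ : B) * pderiv i f with hdd
    have hddv : ∀ j (v : Fin n → C), aeval v (dd j) = ∑ i, w j i * aeval v (pderiv i f) := by
      intro j v
      rw [hdd, map_sum]
      refine sum_congr rfl (fun i _ => ?_)
      rw [map_mul, aeval_C]
      rfl
    have hdeg : ∀ j, (dd j).totalDegree ≤ m := by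
      intro j
      refine totalDegree_finsetSum_le (fun i _ => ?_)
      refine (totalDegree_mul _ _).trans ?_
      rw [totalDegree_C, zero_add]
      exact (pderiv_deg f i).trans (by omega)
    have hdd0 : ∀ j, aeval y (dd j) = 0 := by
      intro j
      rw [hddv, ← hstep f h0 j]
      exact sum_congr rfl (fun i _ => mul_comm _ _)
    set u : Fin n → C := fun i => ∑ j, z j * w j i with hu
    set g : Fin n → Polynomial C := fun i => Polynomial.C (y i) + Polynomial.X * Polynomial.C (u i) with hg
    have hge : ∀ t i, Polynomial.eval t (g i) = y i + t * u i := by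
      intro t i
      rw [hg]
      simp only [Polynomial.eval_add, Polynomial.eval_mul, Polynomial.eval_C, Polynomial.eval_X]
    have hder : Polynomial.derivative (aeval g f) = 0 := by
      have h1 := chain (S := C) (B := B) (R := Polynomial C) Polynomial.derivative' (by
        intro a
        change Polynomial.derivative (algebraMap B (Polynomial C) a) = 0
        rw [Polynomial.algebraMap_apply, Polynomial.derivative_C]) g f
      change Polynomial.derivative (aeval g f) = ∑ i, aeval g (pderiv i f) * Polynomial.derivative (g i) at h1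
      rw [h1]
      apply Polynomial.funext
      intro t
      rw [Polynomial.eval_finsetSum, Polynomial.eval_zero]
      have h2 : ∀ i, Polynomial.eval t (aeval g (pderiv i f) * Polynomial.derivative (g i)) =
          ∑ j, z j * (w j i * aeval (fun i => y i + t * u i) (pderiv i f)) := by
        intro i
        have h3 : Polynomial.derivative (g i) = Polynomial.C (u i) := by
          rw [hg]
          simp
        rw [h3, Polynomial.eval_mul, Polynomial.eval_C, eval_line]
        simp only [hge]
        rw [hu]
        simp only []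
        rw [mul_sum]
        refine sum_congr rfl (fun j _ => ?_)
        ring
      simp only [h2]
      rw [sum_comm]
      refine sum_eq_zero (fun j _ => ?_)
      rw [← mul_sum, ← hddv]
      have h4 := ih (dd j) (hdeg j) (hdd0 j) (fun j' => t * z j')
      have h5 : (fun i => y i + ∑ j', t * z j' * w j' i) = fun i => y i + t * u i := by
        funext i
        rw [hu]
        simp only []
        rw [mul_sum]
        congr 1
        exact sum_congr rfl (fun j _ => by ring)
      rw [h5] at h4
      rw [h4, mul_zero]
    have hconst := Polynomial.eq_C_of_natDegree_eq_zero (Polynomial.derivative_eq_zero.mp hder)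
    have h1 : Polynomial.eval 1 (aeval g f) = Polynomial.eval 0 (aeval g f) := by
      rw [hconst, Polynomial.eval_C, Polynomial.eval_C]
    rw [eval_line, eval_line] at h1
    simp only [hge, zero_mul, add_zero, one_mul] at h1
    rw [h1]
    exact h0

/-- **The main step.** -/
theorem core [CharZero C] {c : ℕ} (l : Fin s → C) (hcol : Col κ C s n c l) (hl : ∀ k, l k ∈ A)
    (β : Fin n → C) (hβ : ∀ i, β i ∈ A) {S e : ℕ} (D : Fin S → DD κ A) (φ : Fin S → Fin s × Fin n → κ)
    (hφ : ∀ r r', ∑ x, φ r' x * dk (D r) (b x.1 x.2) = if r' = r then 1 else 0)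
    (hS : s * e + cs (n ^ 2 + c * n) n < S) :
    ∃ w : Fin (e + 1) → Fin n → κ, LinearIndependent κ w ∧ ∀ P : MvPolynomial (Fin n) C,
      (∀ m, P.coeff m ∈ A) → eval (fun i => β i + ∑ k, l k * algebraMap κ C (b k i)) P = 0 →
      ∀ z : Fin (e + 1) → C, eval (fun i => (β i + ∑ k, l k * algebraMap κ C (b k i)) +
        ∑ a, z a * algebraMap κ C (w a i)) P = 0 := by
  classical
  set q := n ^ 2 + c * n with hq
  set y : Fin n → C := fun i => β i + ∑ k, l k * algebraMap κ C (b k i) with hy
  obtain ⟨W, hWc, hWmin⟩ := exists_min b A q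
  obtain ⟨J, w, hwW, hwJ, hJc, hJ0⟩ := pivot W
  -- the pivot basis is constant
  have hw0 : ∀ (D : DD κ A), (∀ k, dv D (b k) ∈ W) → ∀ j, dv D (w j) = 0 := by
    intro D hD j
    refine hJ0 _ (stable b (by omega) hWmin D hD _ (hwW j)) (fun j' => ?_)
    change dk D (w j j') = 0
    rw [hwJ]
    split_ifs
    · exact dk_one D
    · exact dk_zero D
  set B := AE b A W with hB
  have hwB : ∀ j i, algebraMap κ C (w j i) ∈ B := by
    intro j i D hD
    rw [dk_spec]
    have := congrFun (hw0 D hD j) i
    have h2 : dk D (w j i) = 0 := this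
    rw [h2, map_zero]
  have hDy : ∀ D : DD κ A, ∀ i, D.1 (y i) = ∑ k, l k * algebraMap κ C (dk D (b k i)) := by
    intro D i
    rw [hy]
    simp only []
    rw [map_add, D.2.2 _ (hβ i), zero_add, map_sum]
    refine sum_congr rfl (fun k _ => ?_)
    rw [(D.1).leibniz, D.2.2 _ (hl k), smul_zero, add_zero, smul_eq_mul, dk_spec]
  have hstep : ∀ f : MvPolynomial (Fin n) B, aeval y f = 0 →
      ∀ j : J, ∑ i, aeval y (pderiv i f) * algebraMap κ C (w j i) = 0 := by
    intro f hf j
    refine orth b (by omega) hWmin l hcol (fun i => aeval y (pderiv i f)) (fun D hD => ?_) (w j) (hwW j)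
    have h1 := chain (B := B) D.1 (fun a => a.2 D hD) y f
    rw [hf, map_zero] at h1
    simp only [hDy] at h1
    exact h1.symm
  -- the dimension
  have hdim : e < finrank κ W := by
    let ev : DD κ A →ₗ[κ] (Fin s → Fin n → κ) :=
      { toFun := fun D => fun k => dv D (b k)
        map_add' := fun D D' => by funext k; exact dv_left_add D D' _
        map_smul' := fun a D => by funext k; exact dv_left_smul a D _ }
    have hEm : ∀ E : LinearMap.ker (qW b A W), ∀ k, dv E.1 (b k) ∈ W := fun E => (mem_ker_qW b).mp E.2
    let θ : LinearMap.ker (qW b A W) →ₗ[κ] (Fin s → W) :=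
      { toFun := fun E => fun k => ⟨dv E.1 (b k), hEm E k⟩
        map_add' := by
          intro E E'
          funext k
          exact Subtype.ext (dv_left_add E.1 E'.1 _)
        map_smul' := by
          intro a E
          funext k
          exact Subtype.ext (dv_left_smul a E.1 _) }
    have h1 := rank_two (qW b A W) θ ev (by
      intro E hE
      funext k
      exact congrArg (fun z => (z k : Fin n → κ)) hE)
    have h2 : finrank κ (Fin s → W) = s * finrank κ W := by
      rw [Module.finrank_pi_fintype, sum_const, card_univ, Fintype.card_fin, smul_eq_mul]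
    have h3 : S ≤ finrank κ (LinearMap.range ev) := by
      have h4 : LinearIndependent κ (fun r => ev (D r)) := by
        rw [Fintype.linearIndependent_iff]
        intro g hg r
        have h5 : ∑ x : Fin s × Fin n, φ r x * (∑ r', g r' • ev (D r')) x.1 x.2 = 0 := by
          rw [hg]
          simp
        have h6 : ∑ x : Fin s × Fin n, φ r x * (∑ r', g r' • ev (D r')) x.1 x.2 =
            ∑ r', g r' * ∑ x : Fin s × Fin n, φ r x * dk (D r') (b x.1 x.2) := by
          simp only [Finset.sum_apply, Pi.smul_apply, smul_eq_mul, mul_sum]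
          rw [sum_comm]
          refine sum_congr rfl (fun r' _ => sum_congr rfl (fun x _ => ?_))
          change φ r x * (g r' * dk (D r') (b x.1 x.2)) = _
          ring
        rw [h6] at h5
        simp only [hφ] at h5
        simpa using h5
      have h5 := LinearIndependent.fintype_card_le_finrank
        (b := fun r => (⟨ev (D r), LinearMap.mem_range_self _ _⟩ : LinearMap.range ev)) (by
          refine LinearIndependent.of_comp (LinearMap.range ev).subtype ?_
          exact h4)
      rwa [Fintype.card_fin] at h5
    have h4 : finrank κ (LinearMap.range (qW b A W)) = cd b A W := rfl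
    rw [h2] at h1
    by_contra hcon
    push Not at hcon
    have h5 : s * finrank κ W ≤ s * e := Nat.mul_le_mul_left _ hcon
    omega
  obtain ⟨ι⟩ : Nonempty (Fin (e + 1) ↪ J) :=
    Function.Embedding.nonempty_of_card_le (by rw [Fintype.card_fin, Fintype.card_coe]; omega)
  have hwli : LinearIndependent κ w := by
    rw [Fintype.linearIndependent_iff]
    intro g hg j
    have h1 := congrFun hg j
    rw [Finset.sum_apply] at h1
    simp only [Pi.smul_apply, hwJ, smul_eq_mul, mul_ite, mul_one, mul_zero] at h1
    simpa using h1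
  refine ⟨fun a => w (ι a), hwli.comp ι ι.injective, fun P hP hP0 z => ?_⟩
  have hAB : A ⊆ B := fun a ha D _ => D.2.2 a ha
  obtain ⟨P₀, hP₀⟩ : P ∈ Set.range (MvPolynomial.map B.subtype) := by
    rw [mem_range_map_iff_coeffs_subset]
    intro a ha
    obtain ⟨m, -, rfl⟩ := mem_coeffs_iff.mp (mem_coe.mp ha)
    exact ⟨⟨_, hAB (hP m)⟩, rfl⟩
  have hev : ∀ v : Fin n → C, eval v P = aeval v P₀ := by
    intro v
    rw [← hP₀, eval_map]
    rfl
  rw [hev] at hP0
  have h1 := vanish B y (fun j i => algebraMap κ C (w j i)) hwB hstep _ P₀ le_rfl hP0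
    (fun j => ∑ a, if ι a = j then z a else 0)
  rw [hev]
  have h2 : (fun i => y i + ∑ j, (∑ a, if ι a = j then z a else 0) * algebraMap κ C (w j i)) =
      fun i => y i + ∑ a, z a * algebraMap κ C (w (ι a) i) := by
    funext i
    congr 1
    simp only [sum_mul, ite_mul, zero_mul]
    rw [sum_comm]
    refine sum_congr rfl (fun a _ => ?_)
    rw [Finset.sum_ite_eq univ (ι a), if_pos (mem_univ _)]
  rw [h2] at h1
  exact h1

end core

end Pool.Agent.D0H4.Rk
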