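import Pool.Agent.D0H4.Rk.Columns

/-!
# Counting integral combinations of logarithms in a subspace
-/

set_option autoImplicit false

namespace Pool.Agent.D0H4.Rk

open Module Finset
open Pool.Agent.W254.Ab (QA mem_QA)
open Pool.Agent.W254.PA (Hyp)

/-- integral vectors as rational vectors -/
def qv {n : ℕ} (u : Fin n → ℤ) : Fin n → ℚ := fun i => (u i : ℚ)

/-- integral vectors as vectors over `Ω` -/
def ov (Ω : Type) [Field Ω] {n : ℕ} (u : Fin n → ℤ) : Fin n → Ω := fun i => (u i : Ω)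

/-- few coordinates determine the points of a subspace: the number of integral points in a box -/
theorem box_le {σ : Type} [Fintype σ] [DecidableEq σ] {n : ℕ} (S : Submodule ℚ (σ → Fin n → ℚ))
    (Y : Finset (σ → Fin n → ℤ)) (B : ℕ) (hB : ∀ y ∈ Y, ∀ k i, |y k i| ≤ B)
    (hS : ∀ y ∈ Y, (fun k => qv (y k)) ∈ S) : Y.card ≤ (2 * B + 1) ^ finrank ℚ S := by
  classical
  obtain ⟨K, hK, hK2⟩ := greedy (fun j : σ × Fin n =>
    ((LinearMap.proj j.2 : (Fin n → ℚ) →ₗ[ℚ] ℚ) ∘ₗ (LinearMap.proj j.1 : (σ → Fin n → ℚ) →ₗ[ℚ] (Fin n → ℚ))))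
    (finrank ℚ S) S le_rfl (fun x _ h => funext fun k => funext fun i => h (k, i))
  have h1 : Y.card ≤ (Fintype.piFinset (fun _ : K => Icc (-(B : ℤ)) B)).card := by
    refine card_le_card_of_injOn (fun y => fun j : K => y j.1.1 j.1.2) ?_ ?_
    · intro y hy
      rw [mem_coe, Fintype.mem_piFinset]
      intro j
      rw [mem_Icc]
      exact abs_le.mp (hB y hy _ _)
    · intro y hy z hz hyz
      have h2 := hK2 ((fun k => qv (y k)) - (fun k => qv (z k))) (S.sub_mem (hS y hy) (hS z hz)) (fun j hj => by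
        have h3 := congrFun hyz ⟨j, hj⟩
        have h4 : y j.1 j.2 = z j.1 j.2 := h3
        change (y j.1 j.2 : ℚ) - (z j.1 j.2 : ℚ) = 0
        rw [h4, sub_self])
      funext k i
      have h3 := congrFun (congrFun h2 k) i
      have h4 : (y k i : ℚ) - (z k i : ℚ) = 0 := h3
      exact_mod_cast sub_eq_zero.mp h4
  rw [Fintype.card_piFinset] at h1
  simp only [Int.card_Icc, prod_const, card_univ, Fintype.card_coe] at h1
  refine h1.trans ?_
  have h2 : ((B : ℤ) + 1 - -(B : ℤ)).toNat = 2 * B + 1 := by omega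
  rw [h2]
  exact Nat.pow_le_pow_right (by omega) hK

variable {Ω : Type} [Field Ω] [CharZero Ω] {V₀ : Submodule (QA Ω) Ω}

/-- the value `∑ λ_k x_k` of an integral matrix -/
noncomputable def vz {σ : Type} [Fintype σ] (l : σ → Ω) {n : ℕ} (x : σ → Fin n → ℤ) : Fin n → Ω :=
  fun i => ∑ k, l k * (x k i : Ω)

theorem vz_sub {σ : Type} [Fintype σ] (l : σ → Ω) {n : ℕ} (x y : σ → Fin n → ℤ) :
    vz l (x - y) = vz l x - vz l y := by
  funext i
  simp only [vz, Pi.sub_apply, ← sum_sub_distrib]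
  refine sum_congr rfl (fun k _ => ?_)
  push_cast
  ring

theorem vz_sum {σ ρ : Type} [Fintype σ] [Fintype ρ] (l : σ → Ω) {n : ℕ} (c : ρ → ℤ) (y : ρ → σ → Fin n → ℤ) :
    vz l (∑ r, c r • y r) = ∑ r, (c r : Ω) • vz l (y r) := by
  funext i
  simp only [vz, Finset.sum_apply, Pi.smul_apply, smul_eq_mul, mul_sum]
  rw [sum_comm]
  refine sum_congr rfl (fun k _ => ?_)
  push_cast
  rw [mul_sum]
  refine sum_congr rfl (fun r _ => ?_)
  ring

/-- the small integral vectors of a subspace -/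
def small (Ω : Type) [Field Ω] {n : ℕ} (H : ℕ) (V : Submodule Ω (Fin n → Ω)) : Set (Fin n → ℤ) :=
  {u | (∀ i, |u i| ≤ H) ∧ ov Ω u ∈ V}

/-- the rational space spanned by the small integral vectors of a subspace -/
noncomputable def US {n : ℕ} (H : ℕ) (V : Submodule Ω (Fin n → Ω)) : Submodule ℚ (Fin n → ℚ) :=
  Submodule.span ℚ (qv '' small Ω H V)

theorem columnsZ (hV : Hyp V₀) {n : ℕ} {σ : Type} [Fintype σ] [DecidableEq σ] (l : σ → Ω)
    (hl : ∀ k, l k ∈ V₀) (hli : LinearIndependent (QA Ω) l) (V : Submodule Ω (Fin n → Ω)) :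
    ∃ K : Finset σ, K.card ≤ n ^ 3 ∧ ∀ x : σ → Fin n → ℤ, vz l x ∈ V →
      (∀ k ∈ K, x k = 0) → ∀ k, ov Ω (x k) ∈ V := by
  obtain ⟨K, hK, h⟩ := columns hV l hl hli V
  have hc : ∀ z : ℤ, (((z : QA Ω)) : Ω) = (z : Ω) := fun z => by push_cast; rfl
  refine ⟨K, hK, fun x hx hxK => ?_⟩
  have he : ∀ k, emb Ω n (fun i => ((x k i : ℤ) : QA Ω)) = ov Ω (x k) := by
    intro k
    funext i
    rw [emb_apply, ov, hc]
  have h1 := h (fun k i => ((x k i : ℤ) : QA Ω)) (by
    have : vl l n (fun k i => ((x k i : ℤ) : QA Ω)) = vz l x := by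
      funext i
      rw [vl_apply, vz]
      simp only [hc]
    rw [this]
    exact hx) (fun k hk => by
      rw [he, hxK k hk]
      have : ov Ω (0 : Fin n → ℤ) = 0 := by funext i; simp [ov]
      rw [this]
      exact V.zero_mem)
  intro k
  rw [← he]
  exact h1 k

/-- pigeonhole: `2 n ^ 4 + 1` solutions are dependent modulo the small vectors -/
theorem pigeon (hV : Hyp V₀) {n : ℕ} {σ : Type} [Fintype σ] [DecidableEq σ] (l : σ → Ω)
    (hl : ∀ k, l k ∈ V₀) (hli : LinearIndependent (QA Ω) l) (V : Submodule Ω (Fin n → Ω)) (B H : ℕ) (hB : 1 ≤ B)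
    (R : ℕ) (hR : R = 2 * n ^ 4 + 1) (hH : 2 * R ^ 2 * B ^ 2 ≤ H) (y : Fin R → σ → Fin n → ℤ)
    (hy : ∀ r k i, |y r k i| ≤ B) (hyV : ∀ r, vz l (y r) ∈ V) :
    ∃ c : Fin R → ℤ, c ≠ 0 ∧ ∀ k, qv ((∑ r, c r • y r) k) ∈ US H V := by
  classical
  obtain ⟨K, hK, hcol⟩ := columnsZ hV l hl hli V
  set T : ℕ := 2 * R * B with hT
  have hR1 : 1 ≤ R := by omega
  have hT1 : 1 ≤ T := by
    rw [hT]
    have : 1 ≤ R * B := Nat.one_le_iff_ne_zero.mpr (by positivity)
    nlinarith
  let dom : Finset (Fin R → ℕ) := Fintype.piFinset (fun _ => Finset.range (T + 1))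
  let cod : Finset (K → Fin n → ℤ) :=
    Fintype.piFinset (fun _ => Fintype.piFinset (fun _ => Icc (-((R * T * B : ℕ) : ℤ)) (R * T * B : ℕ)))
  have hsum : ∀ c : Fin R → ℤ, (∀ r, |c r| ≤ T) → ∀ k i, |∑ r, c r * y r k i| ≤ (R * T * B : ℕ) := by
    intro c hc k i
    refine (Finset.abs_sum_le_sum_abs _ _).trans ?_
    have h1 : ∀ r ∈ (univ : Finset (Fin R)), |c r * y r k i| ≤ (T : ℤ) * B := by
      intro r _
      rw [abs_mul]
      exact mul_le_mul (hc r) (hy r k i) (abs_nonneg _) (by positivity)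
    refine (Finset.sum_le_card_nsmul _ _ _ h1).trans (le_of_eq ?_)
    rw [card_univ, Fintype.card_fin, nsmul_eq_mul]
    push_cast
    ring
  have hcard : cod.card < dom.card := by
    have h1 : dom.card = (T + 1) ^ R := by
      simp [dom, Fintype.card_piFinset]
    have h2 : cod.card = ((2 * (R * T * B) + 1) ^ n) ^ K.card := by
      have h3 : (((R * T * B : ℕ) : ℤ) + 1 - -((R * T * B : ℕ) : ℤ)).toNat = 2 * (R * T * B) + 1 := by omega
      simp only [cod, Fintype.card_piFinset, prod_const, card_univ, Int.card_Icc, h3, Fintype.card_coe,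
        Fintype.card_fin]
    rw [h1, h2]
    have h4 : 2 * (R * T * B) + 1 ≤ (T + 1) ^ 2 := by
      have : 2 * (R * T * B) = T * T := by rw [hT]; ring
      rw [this]
      nlinarith
    calc ((2 * (R * T * B) + 1) ^ n) ^ K.card ≤ (((T + 1) ^ 2) ^ n) ^ (n ^ 3) :=
          (Nat.pow_le_pow_right (by positivity) hK).trans
            (Nat.pow_le_pow_left (Nat.pow_le_pow_left h4 _) _)
      _ = (T + 1) ^ (2 * n ^ 4) := by
          rw [← pow_mul, ← pow_mul]
          congr 1
          ring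
      _ < (T + 1) ^ R := Nat.pow_lt_pow_right (by omega) (by omega)
  obtain ⟨c, hc, c', hc', hne, heq⟩ := exists_ne_map_eq_of_card_lt_of_maps_to hcard
    (f := fun c => fun (k : K) i => ∑ r, (c r : ℤ) * y r k i) (fun c hc => by
      have hc2 : ∀ r, |((c r : ℕ) : ℤ)| ≤ T := by
        intro r
        have := Fintype.mem_piFinset.mp (mem_coe.mp hc) r
        rw [Finset.mem_range] at this
        rw [abs_of_nonneg (by positivity)]
        exact_mod_cast Nat.lt_succ_iff.mp this
      rw [mem_coe, Fintype.mem_piFinset]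
      intro k
      rw [Fintype.mem_piFinset]
      intro i
      rw [mem_Icc]
      exact abs_le.mp (hsum _ hc2 k i))
  set e : Fin R → ℤ := fun r => (c r : ℤ) - (c' r : ℤ) with he
  have heT : ∀ r, |e r| ≤ T := by
    intro r
    have h1 := Fintype.mem_piFinset.mp hc r
    have h2 := Fintype.mem_piFinset.mp hc' r
    rw [Finset.mem_range] at h1 h2
    rw [he]
    rw [abs_le]
    constructor <;> simp only [] <;> omega
  have hz : ∀ k i, (∑ r, e r • y r) k i = ∑ r, e r * y r k i := by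
    intro k i
    simp only [Finset.sum_apply, Pi.smul_apply, smul_eq_mul]
  refine ⟨e, ?_, ?_⟩
  · intro h0
    apply hne
    funext r
    have := congrFun h0 r
    simp only [he, Pi.zero_apply] at this
    omega
  · have hval : vz l (∑ r, e r • y r) ∈ V := by
      rw [vz_sum]
      exact V.sum_mem (fun r _ => V.smul_mem _ (hyV r))
    have h1 := hcol _ hval (fun k hk => by
      funext i
      rw [hz]
      have h2 := congrFun (congrFun heq ⟨k, hk⟩) i
      simp only [] at h2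
      simp only [he, sub_mul, sum_sub_distrib, Pi.zero_apply]
      rw [h2, sub_self])
    intro k
    refine Submodule.subset_span ⟨_, ⟨fun i => ?_, h1 k⟩, rfl⟩
    rw [hz]
    refine (hsum e heT k i).trans ?_
    have : R * T * B ≤ H := by
      refine le_trans (le_of_eq ?_) hH
      rw [hT]
      ring
    exact_mod_cast this

/-- the rank of the solutions in a box -/
theorem rank_le (hV : Hyp V₀) {n : ℕ} {σ : Type} [Fintype σ] [DecidableEq σ] (l : σ → Ω)
    (hl : ∀ k, l k ∈ V₀) (hli : LinearIndependent (QA Ω) l) (V : Submodule Ω (Fin n → Ω)) (B H : ℕ) (hB : 1 ≤ B)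
    (hH : 2 * (2 * n ^ 4 + 1) ^ 2 * B ^ 2 ≤ H) (Y : Set (σ → Fin n → ℤ))
    (hy : ∀ y ∈ Y, ∀ k i, |y k i| ≤ B) (hyV : ∀ y ∈ Y, vz l y ∈ V) :
    finrank ℚ (Submodule.span ℚ ((fun (y : σ → Fin n → ℤ) k => qv (y k)) '' Y)) ≤
      Fintype.card σ * finrank ℚ (US H V) + 2 * n ^ 4 := by
  classical
  set cst : (σ → Fin n → ℤ) → (σ → Fin n → ℚ) := fun y k => qv (y k) with hcst
  set N : Submodule ℚ (σ → Fin n → ℚ) :=
    LinearMap.range (LinearMap.pi (fun k => (US H V).subtype ∘ₗ LinearMap.proj k) :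
      (σ → US H V) →ₗ[ℚ] (σ → Fin n → ℚ)) with hN
  have hNm : ∀ x, x ∈ N ↔ ∀ k, x k ∈ US H V := by
    intro x
    rw [hN, LinearMap.mem_range]
    constructor
    · rintro ⟨u, rfl⟩ k
      exact (u k).2
    · intro h
      exact ⟨fun k => ⟨x k, h k⟩, rfl⟩
  have hNr : finrank ℚ N ≤ Fintype.card σ * finrank ℚ (US H V) := by
    refine (LinearMap.finrank_range_le _).trans (le_of_eq ?_)
    rw [Module.finrank_pi_fintype, sum_const, card_univ, smul_eq_mul]
  set S := Submodule.span ℚ (cst '' Y) with hS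
  have h1 : finrank ℚ (S.map N.mkQ) ≤ 2 * n ^ 4 := by
    by_contra hcon
    push Not at hcon
    rw [hS, Submodule.map_span] at hcon
    obtain ⟨b, hbs, hb1, hb2⟩ := exists_linearIndependent ℚ (N.mkQ '' (cst '' Y))
    have hbf : b.Finite := hb2.setFinite
    haveI : Fintype b := hbf.fintype
    rw [← hb1, finrank_span_set_eq_card hb2] at hcon
    have hcard : 2 * n ^ 4 + 1 ≤ Fintype.card b := by
      rw [← Set.toFinset_card]
      exact hcon
    obtain ⟨g⟩ : Nonempty (Fin (2 * n ^ 4 + 1) ↪ b) :=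
      Function.Embedding.nonempty_of_card_le (by rw [Fintype.card_fin]; exact hcard)
    have hch : ∀ r, ∃ y ∈ Y, N.mkQ (cst y) = (g r : (σ → Fin n → ℚ) ⧸ N) := by
      intro r
      obtain ⟨_, ⟨y, hy, rfl⟩, h⟩ := hbs (g r).2
      exact ⟨y, hy, h⟩
    choose y hyY hyg using hch
    obtain ⟨c, hc0, hc⟩ := pigeon hV l hl hli V B H hB _ rfl hH y (fun r => hy _ (hyY r)) (fun r => hyV _ (hyY r))
    have hli3 := hb2.comp g g.injective
    have h2 : ∑ r, (c r : ℚ) • (g r : (σ → Fin n → ℚ) ⧸ N) = 0 := by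
      have h3 : ∑ r, (c r : ℚ) • (g r : (σ → Fin n → ℚ) ⧸ N) = N.mkQ (cst (∑ r, c r • y r)) := by
        have h4 : cst (∑ r, c r • y r) = ∑ r, (c r : ℚ) • cst (y r) := by
          funext k i
          simp only [hcst, qv, Finset.sum_apply, Pi.smul_apply, smul_eq_mul]
          push_cast
          rfl
        rw [h4, map_sum]
        refine sum_congr rfl (fun r _ => ?_)
        rw [map_smul, hyg]
      rw [h3, Submodule.mkQ_apply, Submodule.Quotient.mk_eq_zero, hNm]
      exact hc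
    have h5 := Fintype.linearIndependent_iff.mp hli3 (fun r => (c r : ℚ)) h2
    apply hc0
    funext r
    exact_mod_cast h5 r
  have h2 := LinearMap.finrank_range_add_finrank_ker (N.mkQ.domRestrict S)
  have h3 : finrank ℚ (LinearMap.range (N.mkQ.domRestrict S)) ≤ 2 * n ^ 4 := by
    rw [LinearMap.range_domRestrict]
    exact h1
  have h4 : finrank ℚ (LinearMap.ker (N.mkQ.domRestrict S)) ≤ finrank ℚ N := by
    let ψ : LinearMap.ker (N.mkQ.domRestrict S) →ₗ[ℚ] N :=
      LinearMap.codRestrict N (S.subtype ∘ₗ (LinearMap.ker (N.mkQ.domRestrict S)).subtype) (by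
        intro x
        have h5 : N.mkQ ((x : S) : σ → Fin n → ℚ) = 0 := x.2
        rwa [Submodule.mkQ_apply, Submodule.Quotient.mk_eq_zero] at h5)
    refine LinearMap.finrank_le_finrank_of_injective (f := ψ) ?_
    intro x x' h
    apply Subtype.ext
    apply Subtype.ext
    exact congrArg (fun z : N => (z : σ → Fin n → ℚ)) h
  omega

/-- the box -/
noncomputable def box1 (σ : Type) [Fintype σ] [DecidableEq σ] (n M : ℕ) : Finset (σ → Fin n → ℤ) :=
  Fintype.piFinset (fun _ => Fintype.piFinset (fun _ => Icc (-(M : ℤ)) M))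

theorem mem_box1 {σ : Type} [Fintype σ] [DecidableEq σ] {n M : ℕ} (x : σ → Fin n → ℤ) :
    x ∈ box1 σ n M ↔ ∀ k i, |x k i| ≤ M := by
  rw [box1, Fintype.mem_piFinset]
  refine forall_congr' (fun k => ?_)
  rw [Fintype.mem_piFinset]
  refine forall_congr' (fun i => ?_)
  rw [mem_Icc, abs_le]

open Classical in
/-- **Integral combinations of logarithms in an affine subspace.** -/
theorem coset_count (hV : Hyp V₀) {n : ℕ} {σ : Type} [Fintype σ] [DecidableEq σ] (l : σ → Ω)
    (hl : ∀ k, l k ∈ V₀) (hli : LinearIndependent (QA Ω) l) (V : Submodule Ω (Fin n → Ω)) (M H : ℕ) (hM : 1 ≤ M)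
    (hH : 8 * (2 * n ^ 4 + 1) ^ 2 * M ^ 2 ≤ H) (β : Fin n → Ω) :
    #{x ∈ box1 σ n M | β + vz l x ∈ V} ≤
      (4 * M + 1) ^ (Fintype.card σ * finrank ℚ (US H V) + 2 * n ^ 4) := by
  rcases (filter (fun x => β + vz l x ∈ V) (box1 σ n M)).eq_empty_or_nonempty with h0 | ⟨x₀, hx₀⟩
  · rw [h0]
    simp
  · obtain ⟨hx₀b, hx₀V⟩ := mem_filter.mp hx₀
    rw [mem_box1] at hx₀b
    set X := filter (fun x => β + vz l x ∈ V) (box1 σ n M) with hX
    have hinj : Function.Injective (fun x : σ → Fin n → ℤ => x - x₀) := fun a b h => sub_left_injective h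
    have hY1 : ∀ y ∈ X.image (fun x => x - x₀), ∀ k i, |y k i| ≤ ((2 * M : ℕ) : ℤ) := by
      intro y hy k i
      obtain ⟨x, hx, rfl⟩ := mem_image.mp hy
      obtain ⟨hxb, -⟩ := mem_filter.mp hx
      rw [mem_box1] at hxb
      have h1 := abs_le.mp (hxb k i)
      have h2 := abs_le.mp (hx₀b k i)
      rw [abs_le]
      constructor <;> simp only [Pi.sub_apply] <;> push_cast <;> linarith
    have hY2 : ∀ y ∈ X.image (fun x => x - x₀), vz l y ∈ V := by
      intro y hy
      obtain ⟨x, hx, rfl⟩ := mem_image.mp hy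
      obtain ⟨-, hxV⟩ := mem_filter.mp hx
      have : vz l (x - x₀) = (β + vz l x) - (β + vz l x₀) := by rw [vz_sub]; abel
      rw [this]
      exact V.sub_mem hxV hx₀V
    have h1 := rank_le hV l hl hli V (2 * M) H (by omega) (by nlinarith [hH])
      (X.image (fun x => x - x₀) : Set (σ → Fin n → ℤ)) (fun y hy => hY1 y (mem_coe.mp hy))
      (fun y hy => hY2 y (mem_coe.mp hy))
    have h2 := box_le (Submodule.span ℚ ((fun (y : σ → Fin n → ℤ) k => qv (y k)) ''
      (X.image (fun x => x - x₀) : Set (σ → Fin n → ℤ)))) (X.image (fun x => x - x₀)) (2 * M) hY1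
      (fun y hy => Submodule.subset_span ⟨y, mem_coe.mpr hy, rfl⟩)
    rw [card_image_of_injective _ hinj] at h2
    have h3 : 2 * (2 * M) + 1 = 4 * M + 1 := by ring
    rw [h3] at h2
    exact h2.trans (Nat.pow_le_pow_right (by omega) h1)

end Pool.Agent.D0H4.Rk
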