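import Pool.Agent.D0H4.Rk.Count

/-!
# Zeros of systems of multilinear forms at integral combinations of logarithms
-/

set_option autoImplicit false

namespace Pool.Agent.D0H4.Rk

open Module Finset
open Pool.Agent.W254.Ab (QA mem_QA)
open Pool.Agent.W254.PA (Hyp)

/-- `f` is linear in each of the `d` vectors or does not depend on it -/
def Multi {Ω : Type} [Field Ω] {d n : ℕ} (f : (Fin d → Fin n → Ω) → Ω) : Prop :=
  ∀ i, (∀ y, IsLinearMap Ω (fun z => f (Function.update y i z))) ∨ (∀ y z, f (Function.update y i z) = f y)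

/-- the forms vanish at the points of the product of the rational spaces `U_i` -/
def Van {Ω : Type} [Field Ω] [CharZero Ω] {d n : ℕ} (𝓕 : Set ((Fin d → Fin n → Ω) → Ω))
    (U : Fin d → Submodule ℚ (Fin n → ℚ)) : Prop :=
  ∀ f ∈ 𝓕, ∀ u : Fin d → Fin n → ℚ, (∀ i, u i ∈ U i) → f (fun i j => ((u i j : ℚ) : Ω)) = 0

section multi

variable {Ω : Type} [Field Ω]

theorem multi_cons {d n : ℕ} {f : (Fin (d + 1) → Fin n → Ω) → Ω} (hf : Multi f) (c : Fin n → Ω) :
    Multi (fun y' : Fin d → Fin n → Ω => f (Fin.cons c y' : Fin (d + 1) → Fin n → Ω)) := by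
  intro i
  rcases hf i.succ with h | h
  · left
    intro y
    have := h (Fin.cons c y : Fin (d + 1) → Fin n → Ω)
    simp only [← Fin.cons_update] at this
    exact this
  · right
    intro y z
    have := h (Fin.cons c y : Fin (d + 1) → Fin n → Ω) z
    rw [← Fin.cons_update] at this
    exact this

theorem multi_zero {d n : ℕ} {f : (Fin d → Fin n → Ω) → Ω} (hf : Multi f) (y : Fin d → Fin n → Ω)
    (hy : f y = 0) : f 0 = 0 := by
  classical
  by_cases h : ∃ i, ∀ y, IsLinearMap Ω (fun z => f (Function.update y i z))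
  · obtain ⟨i, hi⟩ := h
    have h1 := (hi 0).map_zero
    rwa [show Function.update (0 : Fin d → Fin n → Ω) i 0 = 0 from Function.update_eq_self i 0] at h1
  · push Not at h
    have h1 : ∀ i y z, f (Function.update y i z) = f y := by
      intro i
      rcases hf i with h2 | h2
      · exact absurd h2 (by push Not; exact h i)
      · exact h2
    have h3 : ∀ J : Finset (Fin d), ∀ y y' : Fin d → Fin n → Ω, (∀ i, i ∉ J → y i = y' i) → f y = f y' := by
      intro J
      induction J using Finset.induction_on with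
      | empty =>
        intro y y' h
        congr 1
        funext i
        exact h i (notMem_empty i)
      | insert i J hi ih =>
        intro y y' h
        rw [← h1 i y (y' i)]
        apply ih
        intro k hk
        by_cases hki : k = i
        · subst hki
          simp
        · rw [Function.update_of_ne hki]
          exact h k (by rw [mem_insert]; push Not; exact ⟨hki, hk⟩)
    rw [← hy]
    exact h3 univ 0 y (fun i hi => absurd (mem_univ i) hi)

/-- the solutions in the first vector -/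
def Vy {d n : ℕ} (𝓕 : Set ((Fin (d + 1) → Fin n → Ω) → Ω)) (y' : Fin d → Fin n → Ω) :
    Submodule Ω (Fin n → Ω) where
  carrier := {z | ∀ f ∈ 𝓕, (∀ y, IsLinearMap Ω (fun z => f (Function.update y 0 z))) →
    f (Fin.cons z y' : Fin (d + 1) → Fin n → Ω) = 0}
  add_mem' := by
    intro a b ha hb f hf hl
    have h1 := (hl (Fin.cons 0 y' : Fin (d + 1) → Fin n → Ω)).map_add a b
    simp only [Fin.update_cons_zero] at h1
    rw [h1, ha f hf hl, hb f hf hl, add_zero]
  zero_mem' := by
    intro f hf hl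
    have h1 := (hl (Fin.cons 0 y' : Fin (d + 1) → Fin n → Ω)).map_zero
    simp only [Fin.update_cons_zero] at h1
    exact h1
  smul_mem' := by
    intro c a ha f hf hl
    have h1 := (hl (Fin.cons 0 y' : Fin (d + 1) → Fin n → Ω)).map_smul c a
    simp only [Fin.update_cons_zero] at h1
    rw [h1, ha f hf hl, smul_zero]

end multi

variable {Ω : Type} [Field Ω] [CharZero Ω] {V₀ : Submodule (QA Ω) Ω}

/-- rational vectors as vectors over `Ω` -/
noncomputable def cq (Ω : Type) [Field Ω] [CharZero Ω] (n : ℕ) : (Fin n → ℚ) →ₗ[ℚ] (Fin n → Ω) where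
  toFun u := fun j => ((u j : ℚ) : Ω)
  map_add' a b := by funext j; simp
  map_smul' c a := by funext j; simp [Algebra.smul_def]

theorem cq_apply {n : ℕ} (u : Fin n → ℚ) : cq Ω n u = fun j => ((u j : ℚ) : Ω) := rfl

theorem cq_mem {n H : ℕ} {V : Submodule Ω (Fin n → Ω)} {u : Fin n → ℚ} (hu : u ∈ US H V) : cq Ω n u ∈ V := by
  have h : US H V ≤ (V.restrictScalars ℚ).comap (cq Ω n) := by
    refine Submodule.span_le.mpr ?_
    rintro _ ⟨v, hv, rfl⟩
    have h1 : cq Ω n (qv v) = ov Ω v := by
      funext j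
      simp [cq, qv, ov]
    change cq Ω n (qv v) ∈ V
    rw [h1]
    exact hv.2
  exact h hu

/-- the space of the small vectors is spanned by `n` of them -/
theorem exists_b {n : ℕ} (H : ℕ) (V : Submodule Ω (Fin n → Ω)) :
    ∃ b : Fin n → Fin n → ℤ, (∀ i j, |b i j| ≤ H) ∧
      Submodule.span ℚ (Set.range (fun i => qv (b i))) = US H V := by
  classical
  obtain ⟨b0, hbs, hb1, hb2⟩ := exists_linearIndependent ℚ (qv '' small Ω H V)
  have hbf : b0.Finite := hb2.setFinite
  haveI : Fintype b0 := hbf.fintype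
  have hcard : Fintype.card b0 ≤ n := by
    have := hb2.fintype_card_le_finrank
    rwa [Module.finrank_fintype_fun_eq_card, Fintype.card_fin] at this
  obtain ⟨φ⟩ : Nonempty (b0 ↪ Fin n) :=
    Function.Embedding.nonempty_of_card_le (by rw [Fintype.card_fin]; exact hcard)
  have hch : ∀ x : b0, ∃ v ∈ small Ω H V, qv v = (x : Fin n → ℚ) := fun x => hbs x.2
  choose v hv hvx using hch
  refine ⟨Function.extend φ v 0, ?_, ?_⟩
  · intro i j
    by_cases h : ∃ x, φ x = i
    · obtain ⟨x, rfl⟩ := h
      rw [φ.injective.extend_apply]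
      exact (hv x).1 j
    · rw [Function.extend_apply' _ _ _ h]
      simp
  · rw [US, ← hb1]
    apply le_antisymm
    · rw [Submodule.span_le]
      rintro _ ⟨i, rfl⟩
      by_cases h : ∃ x, φ x = i
      · obtain ⟨x, rfl⟩ := h
        simp only []
        rw [φ.injective.extend_apply, hvx]
        exact Submodule.subset_span x.2
      · simp only []
        rw [Function.extend_apply' _ _ _ h]
        have : qv (0 : Fin n → ℤ) = 0 := by funext j; simp [qv]
        rw [Pi.zero_apply, this]
        exact Submodule.zero_mem _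
    · rw [Submodule.span_le]
      intro x hx
      refine Submodule.subset_span ⟨φ ⟨x, hx⟩, ?_⟩
      simp only []
      rw [φ.injective.extend_apply, hvx]

/-- the points -/
noncomputable def pt {σ : Type} [Fintype σ] (l : σ → Ω) {d n : ℕ} (β : Fin d → Fin n → Ω)
    (x : Fin d → σ → Fin n → ℤ) : Fin d → Fin n → Ω := fun i => β i + vz l (x i)

/-- the box -/
noncomputable def boxd (d : ℕ) (σ : Type) [Fintype σ] [DecidableEq σ] (n M : ℕ) :
    Finset (Fin d → σ → Fin n → ℤ) := Fintype.piFinset (fun _ => box1 σ n M)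

open Classical in
/-- **Counting theorem.** -/
theorem multi_count (hV : Hyp V₀) {n : ℕ} {σ : Type} [Fintype σ] [DecidableEq σ] (l : σ → Ω)
    (hl : ∀ k, l k ∈ V₀) (hli : LinearIndependent (QA Ω) l) (M H : ℕ) (hM : 1 ≤ M)
    (hH : 8 * (2 * n ^ 4 + 1) ^ 2 * M ^ 2 ≤ H) :
    ∀ (d : ℕ) (𝓕 : Set ((Fin d → Fin n → Ω) → Ω)), (∀ f ∈ 𝓕, Multi f) → ∀ e : ℕ,
      (∀ U : Fin d → Submodule ℚ (Fin n → ℚ), Van 𝓕 U → ∑ i, finrank ℚ (U i) ≤ e) →
      ∀ β : Fin d → Fin n → Ω, #{x ∈ boxd d σ n M | ∀ f ∈ 𝓕, f (pt l β x) = 0} ≤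
        ((2 * H + 1) ^ (n * n) * (4 * M + 1) ^ (2 * n ^ 4)) ^ d * (4 * M + 1) ^ (Fintype.card σ * e) := by
  intro d
  induction d with
  | zero =>
    intro 𝓕 _ e _ β
    refine (card_filter_le _ _).trans ?_
    rw [boxd, Fintype.card_piFinset]
    simp only [univ_eq_empty, prod_empty, pow_zero, one_mul]
    exact Nat.one_le_pow _ _ (by omega)
  | succ d ih =>
    intro 𝓕 h𝓕 e he β
    set s := Fintype.card σ with hs
    set β' : Fin d → Fin n → Ω := fun i => β i.succ with hβ'
    set Bx : Finset (Fin n → Fin n → ℤ) := box1 (Fin n) n H with hBx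
    set Ub : (Fin n → Fin n → ℤ) → Submodule ℚ (Fin n → ℚ) :=
      fun b => Submodule.span ℚ (Set.range (fun i => qv (b i))) with hUb
    set 𝓕b : (Fin n → Fin n → ℤ) → Set ((Fin d → Fin n → Ω) → Ω) :=
      fun b => {g | ∃ f ∈ 𝓕, ∃ u ∈ Ub b, g = fun y' => f (Fin.cons (cq Ω n u) y' : Fin (d + 1) → Fin n → Ω)} with h𝓕b
    set Z' : (Fin n → Fin n → ℤ) → Finset (Fin d → σ → Fin n → ℤ) :=
      fun b => filter (fun x' => ∀ g ∈ 𝓕b b, g (pt l β' x') = 0) (boxd d σ n M) with hZ'
    set T : (Fin n → Fin n → ℤ) → (Fin d → σ → Fin n → ℤ) → Finset (σ → Fin n → ℤ) :=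
      fun b x' => filter (fun x0 => β 0 + vz l x0 ∈ Vy 𝓕 (pt l β' x') ∧ US H (Vy 𝓕 (pt l β' x')) = Ub b)
        (box1 σ n M) with hT
    have hTc : ∀ b x', (T b x').card ≤ (4 * M + 1) ^ (s * finrank ℚ (Ub b) + 2 * n ^ 4) := by
      intro b x'
      by_cases h : US H (Vy 𝓕 (pt l β' x')) = Ub b
      · have h1 := coset_count hV l hl hli (Vy 𝓕 (pt l β' x')) M H hM hH (β 0)
        rw [h] at h1
        refine le_trans (card_le_card ?_) h1
        intro x0 hx0
        rw [hT] at hx0
        simp only [mem_filter] at hx0 ⊢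
        exact ⟨hx0.1, hx0.2.1⟩
      · have h1 : T b x' = ∅ := by
          rw [hT]
          simp only [h, and_false]
          exact filter_false _
        rw [h1]
        simp
    have hmul : ∀ b, ∀ g ∈ 𝓕b b, Multi g := by
      rintro b _ ⟨f, hf, u, -, rfl⟩
      exact multi_cons (h𝓕 f hf) _
    have hvan : ∀ b (U' : Fin d → Submodule ℚ (Fin n → ℚ)), Van (𝓕b b) U' →
        finrank ℚ (Ub b) + ∑ i, finrank ℚ (U' i) ≤ e := by
      intro b U' hU'
      have h1 := he (Fin.cons (Ub b) U' : Fin (d + 1) → Submodule ℚ (Fin n → ℚ)) (by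
        intro f hf u hu
        have h2 : (fun i j => ((u i j : ℚ) : Ω)) =
            (Fin.cons (cq Ω n (u 0)) (fun i j => ((u i.succ j : ℚ) : Ω)) : Fin (d + 1) → Fin n → Ω) := by
          funext i
          refine Fin.cases ?_ (fun i => ?_) i
          · rfl
          · rfl
        rw [h2]
        have h3 := hu 0
        rw [Fin.cons_zero] at h3
        refine hU' _ ⟨f, hf, u 0, h3, rfl⟩ (fun i => u i.succ) (fun i => ?_)
        have h4 := hu i.succ
        rwa [Fin.cons_succ] at h4)
      rw [Fin.sum_univ_succ] at h1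
      exact h1
    have hZc : ∀ b, (Z' b).card * (4 * M + 1) ^ (s * finrank ℚ (Ub b) + 2 * n ^ 4) ≤
        ((2 * H + 1) ^ (n * n) * (4 * M + 1) ^ (2 * n ^ 4)) ^ d * (4 * M + 1) ^ (s * e + 2 * n ^ 4) := by
      intro b
      rcases (Z' b).eq_empty_or_nonempty with h0 | ⟨x', hx'⟩
      · rw [h0, card_empty, zero_mul]
        exact Nat.zero_le _
      · have hle : finrank ℚ (Ub b) ≤ e := by
          have h1 := hvan b (fun _ => ⊥) (by
            intro g hg u hu
            have h2 : (fun i j => ((u i j : ℚ) : Ω)) = 0 := by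
              funext i j
              have := congrFun ((Submodule.mem_bot ℚ).mp (hu i)) j
              rw [this]
              simp
            rw [h2]
            exact multi_zero (hmul b g hg) _ ((mem_filter.mp hx').2 g hg))
          omega
        have h1 := ih (𝓕b b) (hmul b) (e - finrank ℚ (Ub b)) (fun U' hU' => by
          have := hvan b U' hU'
          omega) β'
        refine (Nat.mul_le_mul_right _ h1).trans (le_of_eq ?_)
        rw [mul_assoc, ← pow_add]
        congr 2
        have : s * (e - finrank ℚ (Ub b)) + s * finrank ℚ (Ub b) = s * e := by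
          rw [← mul_add, Nat.sub_add_cancel hle]
        omega
    have hsub : filter (fun x => ∀ f ∈ 𝓕, f (pt l β x) = 0) (boxd (d + 1) σ n M) ⊆
        Bx.biUnion (fun b => (Z' b).biUnion (fun x' => (T b x').image
          (fun x0 => (Fin.cons x0 x' : Fin (d + 1) → σ → Fin n → ℤ)))) := by
      intro x hx
      obtain ⟨hxb, hxf⟩ := mem_filter.mp hx
      rw [boxd, Fintype.mem_piFinset] at hxb
      set x' : Fin d → σ → Fin n → ℤ := fun i => x i.succ with hx'
      have hpt : pt l β x = (Fin.cons (β 0 + vz l (x 0)) (pt l β' x') : Fin (d + 1) → Fin n → Ω) := by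
        funext i
        refine Fin.cases ?_ (fun i => ?_) i
        · rfl
        · rfl
      have hxc : x = (Fin.cons (x 0) x' : Fin (d + 1) → σ → Fin n → ℤ) := by
        funext i
        refine Fin.cases ?_ (fun i => ?_) i
        · rfl
        · rfl
      rw [hpt] at hxf
      obtain ⟨b, hb, hbU⟩ := exists_b H (Vy 𝓕 (pt l β' x'))
      rw [mem_biUnion]
      refine ⟨b, (mem_box1 _).mpr hb, ?_⟩
      rw [mem_biUnion]
      refine ⟨x', ?_, ?_⟩
      · rw [hZ']
        simp only [mem_filter]
        refine ⟨Fintype.mem_piFinset.mpr (fun i => hxb i.succ), ?_⟩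
        rintro _ ⟨f, hf, u, hu, rfl⟩
        have hu' : cq Ω n u ∈ Vy 𝓕 (pt l β' x') := cq_mem (H := H) (by rw [← hbU]; exact hu)
        rcases h𝓕 f hf 0 with h | h
        · exact hu' f hf h
        · have h1 := h (Fin.cons (β 0 + vz l (x 0)) (pt l β' x') : Fin (d + 1) → Fin n → Ω) (cq Ω n u)
          rw [Fin.update_cons_zero] at h1
          simp only []
          rw [h1]
          exact hxf f hf
      · rw [mem_image]
        refine ⟨x 0, ?_, hxc.symm⟩
        rw [hT]
        simp only [mem_filter]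
        refine ⟨hxb 0, fun f hf _ => hxf f hf, hbU.symm⟩
    calc #{x ∈ boxd (d + 1) σ n M | ∀ f ∈ 𝓕, f (pt l β x) = 0}
        ≤ _ := card_le_card hsub
      _ ≤ ∑ b ∈ Bx, ((Z' b).biUnion (fun x' => (T b x').image
          (fun x0 => (Fin.cons x0 x' : Fin (d + 1) → σ → Fin n → ℤ)))).card := card_biUnion_le
      _ ≤ ∑ b ∈ Bx, ∑ x' ∈ Z' b, (4 * M + 1) ^ (s * finrank ℚ (Ub b) + 2 * n ^ 4) := by
          refine sum_le_sum (fun b _ => card_biUnion_le.trans (sum_le_sum (fun x' _ => ?_)))
          exact card_image_le.trans (hTc b x')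
      _ = ∑ b ∈ Bx, (Z' b).card * (4 * M + 1) ^ (s * finrank ℚ (Ub b) + 2 * n ^ 4) := by
          simp only [sum_const, smul_eq_mul]
      _ ≤ ∑ _b ∈ Bx, ((2 * H + 1) ^ (n * n) * (4 * M + 1) ^ (2 * n ^ 4)) ^ d *
            (4 * M + 1) ^ (s * e + 2 * n ^ 4) := sum_le_sum (fun b _ => hZc b)
      _ = ((2 * H + 1) ^ (n * n) * (4 * M + 1) ^ (2 * n ^ 4)) ^ (d + 1) * (4 * M + 1) ^ (s * e) := by
          have h1 : Bx.card = (2 * H + 1) ^ (n * n) := by
            have h3 : ((H : ℤ) + 1 - -(H : ℤ)).toNat = 2 * H + 1 := by omega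
            rw [hBx, box1]
            simp only [Fintype.card_piFinset, prod_const, card_univ, Int.card_Icc, h3, Fintype.card_fin]
            rw [← pow_mul]
          rw [sum_const, smul_eq_mul, h1, pow_succ, pow_add]
          ring

end Pool.Agent.D0H4.Rk
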