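import Pool.Agent.D0H4.Rk.Core2
import Pool.Agent.R350.HB

/-!
# Transfer to ultraproducts
-/

set_option autoImplicit false

namespace Pool.Agent.D0H4.Rk

open Module Filter
open Pool.Agent.R350 (UP gr gr_eq gr_eq_zero gr_surj cst cst_apply algebraMap_gr gr_smul li_ev charZero_UP
  exists_ultra_gen exists_der_U)

section

variable {ι : Type} (𝒰 : Ultrafilter ι)

theorem ev_exists {J : Type} [Finite J] {p : ι → J → Prop} (h : ∀ᶠ t in (𝒰 : Filter ι), ∃ j, p t j) :
    ∃ j, ∀ᶠ t in (𝒰 : Filter ι), p t j := by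
  by_contra hcon
  rw [not_exists] at hcon
  have h1 : ∀ j, ∀ᶠ t in (𝒰 : Filter ι), ¬ p t j := fun j => by
    rw [Ultrafilter.eventually_not]
    exact hcon j
  have h2 : ∀ᶠ t in (𝒰 : Filter ι), ∀ j, ¬ p t j := Filter.eventually_all.mpr h1
  obtain ⟨t, ⟨j, hj⟩, ht⟩ := (h.and h2).exists
  exact ht j hj

variable {κ C : Type} [Field κ] [Field C] [Algebra κ C]

theorem gr_sum {J : Type} (t : Finset J) (f : J → ι → C) :
    ∑ j ∈ t, gr 𝒰 C (f j) = gr 𝒰 C (fun x => ∑ j ∈ t, f j x) := by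
  rw [← map_sum]
  congr 1
  funext x
  rw [Finset.sum_apply]

/-- membership in a subspace of the ultraproduct -/
theorem mem_ev {n m : ℕ} (v : Fin m → Fin n → ι → C) (x : Fin n → ι → C) :
    (fun i => gr 𝒰 C (x i)) ∈ Submodule.span (UP 𝒰 C) (Set.range (fun a => fun i => gr 𝒰 C (v a i))) ↔
      ∀ᶠ t in (𝒰 : Filter ι), (fun i => x i t) ∈ Submodule.span C (Set.range (fun a => fun i => v a i t)) := by
  classical
  constructor
  · intro h
    obtain ⟨c, hc⟩ := (Submodule.mem_span_range_iff_exists_fun _).mp h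
    choose c' hc' using fun a => gr_surj 𝒰 (c a)
    have h1 : ∀ i, ∀ᶠ t in (𝒰 : Filter ι), x i t = ∑ a, c' a t * v a i t := by
      intro i
      rw [← gr_eq, ← gr_sum]
      have h2 := congrFun hc i
      rw [Finset.sum_apply] at h2
      rw [← h2]
      refine Finset.sum_congr rfl (fun a _ => ?_)
      rw [Pi.smul_apply, smul_eq_mul, ← hc' a, ← map_mul]
      rfl
    refine (Filter.eventually_all.mpr h1).mono (fun t ht => ?_)
    rw [Submodule.mem_span_range_iff_exists_fun]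
    refine ⟨fun a => c' a t, ?_⟩
    funext i
    rw [Finset.sum_apply, ht i]
    rfl
  · intro h
    have h1 : ∀ t, ∃ c : Fin m → C, (fun i => x i t) ∈ Submodule.span C (Set.range (fun a => fun i => v a i t)) →
        ∑ a, c a • (fun i => v a i t) = fun i => x i t := by
      intro t
      by_cases ht : (fun i => x i t) ∈ Submodule.span C (Set.range (fun a => fun i => v a i t))
      · obtain ⟨c, hc⟩ := (Submodule.mem_span_range_iff_exists_fun _).mp ht
        exact ⟨c, fun _ => hc⟩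
      · exact ⟨0, fun h => absurd h ht⟩
    choose c hc using h1
    rw [Submodule.mem_span_range_iff_exists_fun]
    refine ⟨fun a => gr 𝒰 C (fun t => c t a), ?_⟩
    funext i
    rw [Finset.sum_apply]
    have h2 : ∑ a, (gr 𝒰 C (fun t => c t a) • (fun i => gr 𝒰 C (v a i))) i =
        gr 𝒰 C (fun t => ∑ a, c t a * v a i t) := by
      rw [← gr_sum]
      refine Finset.sum_congr rfl (fun a _ => ?_)
      rw [Pi.smul_apply, smul_eq_mul, ← map_mul]
      rfl
    rw [h2, gr_eq]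
    refine h.mono (fun t ht => ?_)
    have h3 := congrFun (hc t ht) i
    rw [Finset.sum_apply] at h3
    exact h3

/-- the property `Col` of an ultraproduct -/
theorem col_U {s n c : ℕ} (l : ι → Fin s → C) (h : ∀ t, Col κ C s n c (l t)) :
    Col (UP 𝒰 κ) (UP 𝒰 C) s n c (fun k => gr 𝒰 C (fun t => l t k)) := by
  classical
  intro V
  let B := Module.finBasis (UP 𝒰 C) V
  choose v hv using fun (a : Fin (finrank (UP 𝒰 C) V)) (i : Fin n) => gr_surj 𝒰 ((B a : Fin n → UP 𝒰 C) i)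
  have hV : V = Submodule.span (UP 𝒰 C) (Set.range (fun a => fun i => gr 𝒰 C (v a i))) := by
    have h1 : (fun a => fun i => gr 𝒰 C (v a i)) = fun a => (B a : Fin n → UP 𝒰 C) := by
      funext a i
      exact hv a i
    rw [h1]
    have h2 := congrArg (Submodule.map V.subtype) B.span_eq
    rw [Submodule.map_span, Submodule.map_subtype_top, ← Set.range_comp] at h2
    exact h2.symm
  rw [hV]
  choose K hK hK2 using fun t => h t (Submodule.span C (Set.range (fun a => fun i => v a i t)))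
  obtain ⟨K₀, hK₀⟩ := ev_exists 𝒰 (J := Finset (Fin s)) (p := fun t j => K t = j)
    (Filter.Eventually.of_forall fun t => ⟨K t, rfl⟩)
  refine ⟨K₀, ?_, fun x hx hxK => ?_⟩
  · obtain ⟨t, ht⟩ := hK₀.exists
    rw [← ht]
    exact hK t
  · choose x' hx' using fun k i => gr_surj 𝒰 (x k i)
    have hxe : ∀ k, (fun i => algebraMap (UP 𝒰 κ) (UP 𝒰 C) (x k i)) =
        fun i => gr 𝒰 C (fun t => algebraMap κ C (x' k i t)) := by
      intro k
      funext i
      rw [← hx', algebraMap_gr]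
    have h1 : (fun i => ∑ k, gr 𝒰 C (fun t => l t k) * algebraMap (UP 𝒰 κ) (UP 𝒰 C) (x k i)) =
        fun i => gr 𝒰 C (fun t => ∑ k, l t k * algebraMap κ C (x' k i t)) := by
      funext i
      rw [← gr_sum]
      refine Finset.sum_congr rfl (fun k _ => ?_)
      rw [congrFun (hxe k) i, ← map_mul]
      rfl
    rw [h1, mem_ev] at hx
    have h2 : ∀ᶠ t in (𝒰 : Filter ι), ∀ k : K₀, (fun i => algebraMap κ C (x' k i t)) ∈
        Submodule.span C (Set.range (fun a => fun i => v a i t)) := by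
      rw [Filter.eventually_all]
      intro k
      rw [← mem_ev, ← hxe]
      exact hxK k k.2
    have h3 : ∀ᶠ t in (𝒰 : Filter ι), ∀ k, (fun i => algebraMap κ C (x' k i t)) ∈
        Submodule.span C (Set.range (fun a => fun i => v a i t)) := by
      refine ((hx.and h2).and hK₀).mono (fun t ht => ?_)
      obtain ⟨⟨h4, h5⟩, h6⟩ := ht
      exact hK2 t (fun k i => x' k i t) h4 (fun k hk => h5 ⟨k, by rw [← h6]; exact hk⟩)
    intro k
    rw [hxe, mem_ev]
    exact h3.mono fun t ht => ht k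

/-- values of polynomials with constant coefficients -/
theorem eval_cst {n : ℕ} (v : Fin n → ι → C) (p : MvPolynomial (Fin n) C) :
    MvPolynomial.eval (fun i => gr 𝒰 C (v i)) (MvPolynomial.map (cst 𝒰 C) p) =
      gr 𝒰 C (fun t => MvPolynomial.eval (fun i => v i t) p) := by
  induction p using MvPolynomial.induction_on with
  | C a =>
    rw [MvPolynomial.map_C, MvPolynomial.eval_C, cst_apply]
    simp only [MvPolynomial.eval_C]
  | add p q hp hq =>
    rw [map_add, map_add, hp, hq, ← map_add]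
    congr 1
    funext t
    rw [Pi.add_apply, map_add]
  | mul_X p j hp =>
    rw [map_mul, map_mul, hp, MvPolynomial.map_X, MvPolynomial.eval_X, ← map_mul]
    congr 1
    funext t
    rw [Pi.mul_apply, map_mul, MvPolynomial.eval_X]

/-- linear independence of vectors over the ultrapower -/
theorem li_evK [CharZero C] {e n : ℕ} (w : Fin e → Fin n → ι → κ)
    (h : LinearIndependent (UP 𝒰 κ) (fun a => fun i => gr 𝒰 κ (w a i))) :
    ∀ᶠ t in (𝒰 : Filter ι), LinearIndependent κ (fun a => fun i => w a i t) := by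
  have h1 : LinearIndependent (UP 𝒰 κ) (fun a => fun i => gr 𝒰 C (fun t => algebraMap κ C (w a i t))) := by
    have h2 := h.map' (em (UP 𝒰 κ) (UP 𝒰 C) n) (by
      rw [LinearMap.ker_eq_bot']
      intro x hx
      funext i
      have := congrFun hx i
      rw [em_apply, Pi.zero_apply, map_eq_zero] at this
      exact this)
    exact h2
  refine (li_ev 𝒰 (κ := κ) (C := C) (fun a i => fun t => algebraMap κ C (w a i t)) h1).mono (fun t ht => ?_)
  refine LinearIndependent.of_comp (em κ C n) ?_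
  exact ht

end

/-- the points -/
noncomputable def pb {κ C : Type} [Field κ] [Field C] [Algebra κ C] {s n : ℕ} (l : Fin s → C) (β : Fin n → C)
    (b : Fin s × Fin n → κ) : Fin n → C := fun i => β i + ∑ k, l k * algebraMap κ C (b (k, i))

/-- the polynomials do not all vanish on a translate, through one of the points, of a space of dimension `e + 1`
defined over `κ` -/
def Fl {κ C : Type} [Field κ] [Field C] [Algebra κ C] {s n r : ℕ} (𝔅 : Set (Fin s × Fin n → κ))
    (l : Fin s → C) (β : Fin n → C) (P : Fin r → MvPolynomial (Fin n) C) (e : ℕ) : Prop :=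
  ∀ w : Fin (e + 1) → Fin n → κ, LinearIndependent κ w → ∀ b ∈ 𝔅, ∃ (j : Fin r) (z : Fin (e + 1) → C),
    MvPolynomial.eval (fun i => pb l β b i + ∑ a, z a * algebraMap κ C (w a i)) (P j) ≠ 0

/-- **The zeros of a system of polynomials at combinations of the `λ_k` have small dimension.** -/
theorem dim_fixed {κ C : Type} [Field κ] [CharZero κ] [Field C] [CharZero C] [Algebra κ C] {s n c r : ℕ}
    (𝔅 : Set (Fin s × Fin n → κ)) (l : Fin s → C) (hcol : Col κ C s n c l) (β : Fin n → C)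
    (P : Fin r → MvPolynomial (Fin n) C) {e S : ℕ}
    (hS : s * e + cs (n ^ 2 + c * n) n < S) (hF : Fl 𝔅 l β P e) (φ : Fin S → Fin s × Fin n → κ) :
    ∃ Δ : MvPolynomial (Fin S) κ, Δ ≠ 0 ∧ ∀ b ∈ 𝔅,
      MvPolynomial.eval (fun q => ∑ x, φ q x * b x) Δ ≠ 0 → ∃ j, MvPolynomial.eval (pb l β b) (P j) ≠ 0 := by
  classical
  by_contra hcon
  push Not at hcon
  let ι : Type := {b : Fin s × Fin n → κ // b ∈ 𝔅 ∧ ∀ j, MvPolynomial.eval (pb l β b) (P j) = 0}
  obtain ⟨𝒰, hgen⟩ := exists_ultra_gen (ι := ι) (fun b (q : Fin S) => ∑ x, φ q x * b.1 x) (by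
    intro Q hQ
    obtain ⟨b, h0, h1, h2⟩ := hcon Q hQ
    exact ⟨⟨b, h0, h2⟩, h1⟩)
  have hch1 : CharZero (UP 𝒰 κ) := charZero_UP 𝒰
  have hch2 : CharZero (UP 𝒰 C) := charZero_UP 𝒰
  choose D hD1 hD2 hD3 using fun q => exists_der_U (C := C) 𝒰
    (fun q (b : ι) => ∑ x, φ q x * b.1 x) hgen q
  set A : Set (UP 𝒰 C) := Set.range (cst 𝒰 C) with hA
  let D' : Fin S → DD (UP 𝒰 κ) A := fun q => ⟨D q, hD1 q, by
    rintro _ ⟨z, rfl⟩
    exact hD2 q z⟩
  set b' : Fin s → Fin n → UP 𝒰 κ := fun k i => gr 𝒰 κ (fun b : ι => b.1 (k, i)) with hb'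
  obtain ⟨w, hw, hwP⟩ := core b' (A := A) (c := c) (fun k => gr 𝒰 C (fun _ : ι => l k))
    (col_U 𝒰 (fun _ => l) (fun _ => hcol)) (fun k => ⟨l k, rfl⟩) (fun i => cst 𝒰 C (β i)) (fun i => ⟨β i, rfl⟩)
    D' (fun q x => cst 𝒰 κ (φ q x)) (by
      intro q q'
      have h1 := hD3 q q'
      have h2 : algebraMap (UP 𝒰 κ) (UP 𝒰 C) (gr 𝒰 κ (fun b : ι => ∑ x, φ q' x * b.1 x)) =
          ∑ x, cst 𝒰 C (algebraMap κ C (φ q' x)) *
            algebraMap (UP 𝒰 κ) (UP 𝒰 C) (gr 𝒰 κ (fun b : ι => b.1 x)) := by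
        simp only [algebraMap_gr, cst_apply, ← map_mul, ← map_sum]
        congr 1
        funext b
        simp only [Finset.sum_apply, Pi.mul_apply, map_sum, map_mul]
      rw [h2, map_sum] at h1
      have h3 : ∀ x : Fin s × Fin n, D q (cst 𝒰 C (algebraMap κ C (φ q' x)) *
          algebraMap (UP 𝒰 κ) (UP 𝒰 C) (gr 𝒰 κ (fun b : ι => b.1 x))) =
          algebraMap (UP 𝒰 κ) (UP 𝒰 C) (cst 𝒰 κ (φ q' x) * dk (D' q) (b' x.1 x.2)) := by
        intro x
        have h4 : D q (algebraMap (UP 𝒰 κ) (UP 𝒰 C) (b' x.1 x.2)) =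
            algebraMap (UP 𝒰 κ) (UP 𝒰 C) (dk (D' q) (b' x.1 x.2)) := dk_spec (D' q) (b' x.1 x.2)
        rw [(D q).leibniz, hD2, smul_zero, add_zero, smul_eq_mul, map_mul, ← h4]
        rfl
      simp only [h3] at h1
      apply (algebraMap (UP 𝒰 κ) (UP 𝒰 C)).injective
      rw [map_sum, h1, apply_ite (algebraMap (UP 𝒰 κ) (UP 𝒰 C)), map_one, map_zero]) hS
  have hy : (fun i => cst 𝒰 C (β i) + ∑ k, gr 𝒰 C (fun _ : ι => l k) *
      algebraMap (UP 𝒰 κ) (UP 𝒰 C) (b' k i)) = fun i => gr 𝒰 C (fun b : ι => pb l β b.1 i) := by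
    funext i
    have h1 : ∑ k, gr 𝒰 C (fun _ : ι => l k) * algebraMap (UP 𝒰 κ) (UP 𝒰 C) (b' k i) =
        gr 𝒰 C (fun b : ι => ∑ k, l k * algebraMap κ C (b.1 (k, i))) := by
      rw [← gr_sum]
      refine Finset.sum_congr rfl (fun k _ => ?_)
      rw [hb']
      simp only []
      rw [algebraMap_gr, ← map_mul]
      rfl
    rw [h1, cst_apply, ← map_add]
    rfl
  choose w' hw' using fun a i => gr_surj 𝒰 (w a i)
  have hwe : (fun a => fun i => gr 𝒰 κ (w' a i)) = w := by
    funext a i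
    exact hw' a i
  rw [← hwe] at hw
  have hli := li_evK (C := C) 𝒰 w' hw
  have h1 : ∀ b : ι, ∃ (z : Fin (e + 1) → C), LinearIndependent κ (fun a => fun i => w' a i b) →
      ∃ j, MvPolynomial.eval (fun i => pb l β b.1 i + ∑ a, z a * algebraMap κ C (w' a i b)) (P j) ≠ 0 := by
    intro b
    by_cases h : LinearIndependent κ (fun a => fun i => w' a i b)
    · obtain ⟨j, z, hz⟩ := hF _ h b.1 b.2.1
      exact ⟨z, fun _ => ⟨j, hz⟩⟩
    · exact ⟨0, fun h' => absurd h' h⟩
  choose z hz using h1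
  obtain ⟨j, hj⟩ := ev_exists 𝒰 (hli.mono fun b hb => hz b hb)
  have h2 := hwP (MvPolynomial.map (cst 𝒰 C) (P j)) (fun m => by
      rw [MvPolynomial.coeff_map]
      exact ⟨_, rfl⟩) (by
      rw [hy, eval_cst, gr_eq_zero]
      exact Filter.Eventually.of_forall fun b => b.2.2 j) (fun a => gr 𝒰 C (fun b => z b a))
  have h3 : (fun i => (cst 𝒰 C (β i) + ∑ k, gr 𝒰 C (fun _ : ι => l k) *
      algebraMap (UP 𝒰 κ) (UP 𝒰 C) (b' k i)) + ∑ a, gr 𝒰 C (fun b => z b a) *
        algebraMap (UP 𝒰 κ) (UP 𝒰 C) (w a i)) =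
      fun i => gr 𝒰 C (fun b : ι => pb l β b.1 i + ∑ a, z b a * algebraMap κ C (w' a i b)) := by
    funext i
    have h4 := congrFun hy i
    rw [h4]
    have h5 : ∑ a, gr 𝒰 C (fun b => z b a) * algebraMap (UP 𝒰 κ) (UP 𝒰 C) (w a i) =
        gr 𝒰 C (fun b : ι => ∑ a, z b a * algebraMap κ C (w' a i b)) := by
      rw [← gr_sum]
      refine Finset.sum_congr rfl (fun a _ => ?_)
      rw [← hw', algebraMap_gr, ← map_mul]
      rfl
    rw [h5, ← map_add]
    rfl
  rw [h3, eval_cst, gr_eq_zero] at h2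
  obtain ⟨b, hb1, hb2⟩ := (h2.and hj).exists
  exact hb2 hb1

end Pool.Agent.D0H4.Rk
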